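import Pool.Agent.H635EF.Ret

set_option autoImplicit false

namespace Pool.Agent.H635EF

open Classical

variable {W : Type} {M : SimpleGraph W} [Fintype W]

/-- orbits of a permutation -/
abbrev Orb {A : Type} (π : Equiv.Perm A) : Type := Quotient (Equiv.Perm.SameCycle.setoid π)

/-- the class of an element -/
abbrev cls {A : Type} (π : Equiv.Perm A) (a : A) : Orb π := Quotient.mk _ a

theorem cls_eq {A : Type} (π : Equiv.Perm A) (a b : A) : cls π a = cls π b ↔ π.SameCycle a b :=
  Quotient.eq (r := Equiv.Perm.SameCycle.setoid π)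

theorem cls_apply {A : Type} (π : Equiv.Perm A) (a : A) : cls π (π a) = cls π a := by
  rw [cls_eq]
  exact (Equiv.Perm.sameCycle_apply_left).2 (Equiv.Perm.SameCycle.refl _ _)

/-- boundary of a function on faces -/
noncomputable def beta {A : Type} [Fintype A] (π : Equiv.Perm A) (ι : A → M.Dart) :
    (Orb π → ZMod 2) →ₗ[ZMod 2] (M.edgeSet → ZMod 2) where
  toFun f e := ∑ a : A with (ι a).edge = e.1, f (cls π a)
  map_add' f g := by
    ext e
    simp [Finset.sum_add_distrib]
  map_smul' r f := by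
    ext e
    simp [Finset.mul_sum]

theorem sum_fiber (f : M.Dart → ZMod 2) (d : M.Dart) :
    ∑ a : M.Dart with a.edge = (ed d).1, f a = f d + f d.symm := by
  have h : (Finset.univ.filter fun a : M.Dart => a.edge = (ed d).1) = {d, d.symm} :=
    SimpleGraph.Dart.edge_fiber d
  rw [h, Finset.sum_pair]
  exact (SimpleGraph.Dart.symm_ne d).symm

/-- the boundary map of the faces of `M` -/
noncomputable abbrev betaM (ρ : Rot M) : (Orb ρ.φ → ZMod 2) →ₗ[ZMod 2] (M.edgeSet → ZMod 2) :=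
  beta ρ.φ (fun d => d)

/-- the boundary map of the faces of `G` -/
noncomputable abbrev betaG (ρ : Rot M) (G : M.Subgraph) :
    (Orb (Phi ρ G) → ZMod 2) →ₗ[ZMod 2] (M.edgeSet → ZMod 2) :=
  beta (Phi ρ G) (fun d => d.1)

theorem betaM_ed (ρ : Rot M) (f : Orb ρ.φ → ZMod 2) (d : M.Dart) :
    betaM ρ f (ed d) = f (cls ρ.φ d) + f (cls ρ.φ d.symm) :=
  sum_fiber (fun a => f (cls ρ.φ a)) d

theorem phi_symm (ρ : Rot M) (d : M.Dart) : ρ.φ d.symm = ρ.σ d := by
  show ρ.σ (d.symm.symm) = ρ.σ d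
  rw [SimpleGraph.Dart.symm_symm]

theorem cls_symm (ρ : Rot M) (d : M.Dart) : cls ρ.φ d.symm = cls ρ.φ (ρ.σ d) := by
  rw [← phi_symm, cls_apply]

theorem betaM_ker (ρ : Rot M) (f : Orb ρ.φ → ZMod 2) : b1 M (betaM ρ f) = 0 := by
  ext v
  show ∑ d : M.Dart with d.fst = v, betaM ρ f (ed d) = 0
  have h1 : ∀ d : M.Dart, betaM ρ f (ed d) = f (cls ρ.φ d) + f (cls ρ.φ (ρ.σ d)) := by
    intro d
    rw [betaM_ed, cls_symm]
  rw [Finset.sum_congr rfl (fun d _ => h1 d), Finset.sum_add_distrib]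
  have h2 : ∑ d : M.Dart with d.fst = v, f (cls ρ.φ (ρ.σ d)) =
      ∑ d : M.Dart with d.fst = v, f (cls ρ.φ d) := by
    apply Finset.sum_equiv ρ.σ
    · intro d
      rw [Finset.mem_filter, Finset.mem_filter, ρ.fst_eq]
      simp
    · intro d _
      rfl
  rw [h2]
  exact CharTwo.add_self_eq_zero _

theorem betaM_const (ρ : Rot M) (hM : M.Connected) (f : Orb ρ.φ → ZMod 2)
    (hf : betaM ρ f = 0) (d e : M.Dart) : f (cls ρ.φ d) = f (cls ρ.φ e) := by
  have h1 : ∀ d : M.Dart, f (cls ρ.φ d.symm) = f (cls ρ.φ d) := by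
    intro d
    have h := congrFun hf (ed d)
    rw [betaM_ed] at h
    have h' : f (cls ρ.φ d) + f (cls ρ.φ d.symm) = 0 := h
    exact (CharTwo.add_eq_zero.1 h').symm
  have h2 : ∀ d : M.Dart, f (cls ρ.φ (ρ.σ d)) = f (cls ρ.φ d) := by
    intro d
    rw [← cls_symm, h1]
  have h3 : ∀ d e : M.Dart, d.fst = e.fst → f (cls ρ.φ d) = f (cls ρ.φ e) := by
    intro d e hde
    obtain ⟨n, hn⟩ := (ρ.cyc d e hde).exists_nat_pow_eq
    rw [← hn]
    clear hn hde
    induction n with
    | zero => rfl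
    | succ n ih => rw [pow_succ', Equiv.Perm.mul_apply, h2, ih]
  have h4 : ∀ u v : W, ∀ p : M.Walk u v, ∀ d e : M.Dart, d.fst = u → e.fst = v →
      f (cls ρ.φ d) = f (cls ρ.φ e) := by
    intro u v p
    induction p with
    | nil =>
      intro d e hd he
      exact h3 d e (hd.trans he.symm)
    | cons h p ih =>
      intro d e hd he
      rename_i a b c
      have h5 := ih (SimpleGraph.Dart.mk (b, a) h.symm) e rfl he
      rw [← h5]
      have h6 := h1 (SimpleGraph.Dart.mk (a, b) h)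
      have h7 : (SimpleGraph.Dart.mk (a, b) h : M.Dart).symm = SimpleGraph.Dart.mk (b, a) h.symm :=
        rfl
      rw [← h7, h6]
      exact h3 _ _ hd
  obtain ⟨p⟩ := hM.preconnected d.fst e.fst
  exact h4 _ _ p d e rfl rfl

theorem k3 (ρ : Rot M) (hM : M.Connected) :
    ρ.faces ≤ Module.finrank (ZMod 2) (LinearMap.range (betaM ρ)) + 1 := by
  have h1 := LinearMap.finrank_range_add_finrank_ker (betaM ρ)
  have h2 : Module.finrank (ZMod 2) (Orb ρ.φ → ZMod 2) = ρ.faces := by
    rw [Module.finrank_fintype_fun_eq_card]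
    unfold Rot.faces
    rw [Nat.card_eq_fintype_card]
  have h3 : Module.finrank (ZMod 2) (LinearMap.ker (betaM ρ)) ≤ 1 := by
    apply finrank_le_one (⟨fun _ => 1, ?_⟩ : LinearMap.ker (betaM ρ))
    · intro f
      by_cases hne : Nonempty M.Dart
      · obtain ⟨d0⟩ := hne
        refine ⟨f.1 (cls ρ.φ d0), ?_⟩
        apply Subtype.ext
        funext q
        obtain ⟨d, rfl⟩ := Quotient.exists_rep q
        show f.1 (cls ρ.φ d0) * 1 = f.1 (cls ρ.φ d)
        rw [mul_one]
        exact betaM_const ρ hM f.1 (LinearMap.mem_ker.1 f.2) d0 d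
      · refine ⟨0, ?_⟩
        apply Subtype.ext
        funext q
        obtain ⟨d, rfl⟩ := Quotient.exists_rep q
        exact absurd ⟨d⟩ hne
    · rw [LinearMap.mem_ker]
      funext e
      obtain ⟨e, he⟩ := e
      induction e with
      | _ u v =>
      have h := betaM_ed ρ (fun _ => 1) (SimpleGraph.Dart.mk (u, v) he : M.Dart)
      have h' : betaM ρ (fun _ => 1) (ed (SimpleGraph.Dart.mk (u, v) he : M.Dart)) = 0 := by
        rw [h]
        exact CharTwo.add_self_eq_zero _
      exact h'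
  omega

end Pool.Agent.H635EF
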