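import Pool.Agent.H635EF.Beta

set_option autoImplicit false

namespace Pool.Agent.H635EF

open Classical

variable {W : Type} {M : SimpleGraph W} [Fintype W]

/-- a dart-sum over the darts of `G` as a sum over all darts -/
theorem sum_DG (G : M.Subgraph) (P : M.Dart → Prop) (f : DG G → ZMod 2) (g : M.Dart → ZMod 2)
    (hg : ∀ d : DG G, g d.1 = f d) (hg0 : ∀ d : M.Dart, ¬ G.Adj d.fst d.snd → g d = 0) :
    ∑ a : DG G with P a.1, f a = ∑ d : M.Dart with P d, g d := by
  have h1 : ∑ d : M.Dart with P d, g d = ∑ d : M.Dart with (P d ∧ G.Adj d.fst d.snd), g d := by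
    symm
    apply Finset.sum_subset
    · intro d hd
      rw [Finset.mem_filter] at hd ⊢
      exact ⟨hd.1, hd.2.1⟩
    · intro d hd hd2
      rw [Finset.mem_filter] at hd hd2
      apply hg0
      intro h
      exact hd2 ⟨hd.1, hd.2, h⟩
  rw [h1]
  apply Finset.sum_bij (fun (a : DG G) _ => a.1)
  · intro a ha
    rw [Finset.mem_filter] at ha ⊢
    exact ⟨Finset.mem_univ _, ha.2, a.2⟩
  · intro a _ b _ h
    exact Subtype.ext h
  · intro d hd
    rw [Finset.mem_filter] at hd
    exact ⟨⟨d, hd.2.2⟩, Finset.mem_filter.2 ⟨Finset.mem_univ _, hd.2.1⟩, rfl⟩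
  · intro a _
    exact (hg a).symm

/-- a face function of `G` as a function on all darts -/
noncomputable def ext0 (ρ : Rot M) (G : M.Subgraph) (f : Orb (Phi ρ G) → ZMod 2) (d : M.Dart) :
    ZMod 2 :=
  if h : G.Adj d.fst d.snd then f (cls (Phi ρ G) ⟨d, h⟩) else 0

theorem betaG_apply (ρ : Rot M) (G : M.Subgraph) (f : Orb (Phi ρ G) → ZMod 2) (e : M.edgeSet) :
    betaG ρ G f e = ∑ d : M.Dart with d.edge = e.1, ext0 ρ G f d := by
  have h := sum_DG G (fun d => d.edge = e.1) (fun a => f (cls (Phi ρ G) a)) (ext0 ρ G f)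
    (fun d => by
      unfold ext0
      rw [dif_pos d.2])
    (fun d hd => by
      unfold ext0
      rw [dif_neg hd])
  have h2 : betaG ρ G f e = ∑ a : DG G with a.1.edge = e.1, f (cls (Phi ρ G) a) := rfl
  rw [h2]
  convert h

theorem betaG_ed (ρ : Rot M) (G : M.Subgraph) (f : Orb (Phi ρ G) → ZMod 2) (d : M.Dart) :
    betaG ρ G f (ed d) = ext0 ρ G f d + ext0 ρ G f d.symm := by
  rw [betaG_apply]
  exact sum_fiber (ext0 ρ G f) d

theorem edgeSet_ext (x y : M.edgeSet → ZMod 2) (h : ∀ d : M.Dart, x (ed d) = y (ed d)) : x = y := by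
  funext e
  obtain ⟨e, he⟩ := e
  induction e with
  | _ u v => exact h (SimpleGraph.Dart.mk (u, v) he : M.Dart)

theorem k5 (ρ : Rot M) (G : M.Subgraph) (hne : Nonempty (DG G)) :
    Module.finrank (ZMod 2) (LinearMap.range (betaG ρ G)) + 1 ≤ Nat.card (Orb (Phi ρ G)) := by
  have h1 := LinearMap.finrank_range_add_finrank_ker (betaG ρ G)
  have h2 : Module.finrank (ZMod 2) (Orb (Phi ρ G) → ZMod 2) = Nat.card (Orb (Phi ρ G)) := by
    rw [Module.finrank_fintype_fun_eq_card, Nat.card_eq_fintype_card]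
  have h3 : 0 < Module.finrank (ZMod 2) (LinearMap.ker (betaG ρ G)) := by
    rw [Module.finrank_pos_iff_exists_ne_zero]
    refine ⟨⟨fun _ => 1, ?_⟩, ?_⟩
    · rw [LinearMap.mem_ker]
      apply edgeSet_ext
      intro d
      rw [betaG_ed]
      show _ = (0 : ZMod 2)
      unfold ext0
      by_cases h : G.Adj d.fst d.snd
      · rw [dif_pos h, dif_pos (symm_adj G d h)]
        exact CharTwo.add_self_eq_zero _
      · have h' : ¬ G.Adj d.symm.fst d.symm.snd := fun h' => h (symm_adj G d.symm h')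
        rw [dif_neg h, dif_neg h', add_zero]
    · intro h
      obtain ⟨d⟩ := hne
      have h4 := congrFun (congrArg Subtype.val h) (cls (Phi ρ G) d)
      exact one_ne_zero h4
  omega

theorem k4 (ρ : Rot M) (G : M.Subgraph) (x : M.edgeSet → ZMod 2)
    (hx : x ∈ LinearMap.range (betaM ρ)) (hG : ∀ e : M.edgeSet, e.1 ∉ G.edgeSet → x e = 0) :
    x ∈ LinearMap.range (betaG ρ G) := by
  obtain ⟨f, rfl⟩ := hx
  set χ : M.Dart → ZMod 2 := fun d => f (cls ρ.φ d) with hχ
  have h1 : ∀ d, χ (ρ.φ d) = χ d := fun d => by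
    simp only [hχ]
    rw [cls_apply]
  have h2 : ∀ d : M.Dart, ¬ G.Adj d.fst d.snd → χ d.symm = χ d := by
    intro d hd
    have h3 : (ed d).1 ∉ G.edgeSet := by
      intro h
      exact hd (SimpleGraph.Subgraph.mem_edgeSet.1 h)
    have h4 := hG (ed d) h3
    rw [betaM_ed] at h4
    exact (CharTwo.add_eq_zero.1 h4).symm
  have h5 : ∀ a b : DG G, (Phi ρ G).SameCycle a b → χ a.1 = χ b.1 := by
    intro a b hab
    obtain ⟨n, hn⟩ := hab.exists_nat_pow_eq
    rw [← hn]
    clear hn hab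
    induction n with
    | zero => rfl
    | succ n ih =>
      rw [pow_succ', Equiv.Perm.mul_apply, Phi_val, ret ρ G χ h1 h2 _ (((Phi ρ G) ^ n) a).2]
      exact ih
  refine ⟨fun q => Quotient.liftOn q (fun a : DG G => χ a.1) h5, ?_⟩
  apply edgeSet_ext
  intro d
  rw [betaG_ed, betaM_ed]
  unfold ext0
  by_cases h : G.Adj d.fst d.snd
  · rw [dif_pos h, dif_pos (symm_adj G d h)]
    rfl
  · have h' : ¬ G.Adj d.symm.fst d.symm.snd := fun h' => h (symm_adj G d.symm h')
    rw [dif_neg h, dif_neg h', add_zero]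
    have h6 := h2 d h
    show (0 : ZMod 2) = χ d + χ d.symm
    rw [h6]
    exact (CharTwo.add_self_eq_zero _).symm

end Pool.Agent.H635EF
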