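import Pool.Agent.H635EF.Defs

/-! Chains modulo 2, used in the proof. -/

set_option autoImplicit false

namespace Pool.Agent.H635EF

open Classical

variable {W : Type} {M : SimpleGraph W} [Fintype W]

/-- the edge of a dart -/
def ed (d : M.Dart) : M.edgeSet := ⟨d.edge, d.edge_mem⟩

/-- boundary of a 1-chain -/
noncomputable def b1 (M : SimpleGraph W) : (M.edgeSet → ZMod 2) →ₗ[ZMod 2] (W → ZMod 2) where
  toFun x v := ∑ d : M.Dart with d.fst = v, x (ed d)
  map_add' x y := by
    ext v
    simp [Finset.sum_add_distrib]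
  map_smul' r x := by
    ext v
    simp [Finset.mul_sum]

/-- the 1-chain of a walk -/
noncomputable def vec {u v : W} (c : M.Walk u v) : M.edgeSet → ZMod 2 :=
  fun e => ((c.edges.count e.1 : ℕ) : ZMod 2)

end Pool.Agent.H635EF
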