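import Mathlib

/-! Definitions for MP_caf32e_co: graphs embedded in closed orientable surfaces.

A closed orientable surface is given by a finite connected graph `M` with a rotation system `ρ`: glue
a disc along every facial boundary walk. By Euler's formula the genus `g` of the surface satisfies
`|V| - |E| + |F| = 2 - 2 g`. A graph embedded in the surface is a subgraph `G` of such an `M`: every
finite graph embedded in a closed orientable surface is of this kind, as one can add vertices and
edges inside its faces until the supergraph `M` is connected, simple and all its faces are discs. So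
`G` may be disconnected and its faces need not be discs. -/

set_option autoImplicit false

namespace Pool.Agent.H635EF

open Classical

variable {W : Type} {M : SimpleGraph W}

/-- A rotation system of a graph `M`: a permutation of the darts (oriented edges) which permutes
the darts leaving each vertex in one cycle (the clockwise order of the edges around the vertex). -/
structure Rot (M : SimpleGraph W) where
  /-- the next dart around the same vertex -/
  σ : Equiv.Perm M.Dart
  fst_eq : ∀ d, (σ d).fst = d.fst
  cyc : ∀ d e : M.Dart, d.fst = e.fst → σ.SameCycle d e

/-- The face permutation: from a dart `uv`, the next dart of the face on its side is the dart that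
follows `vu` around `v`. Its cycles are the facial boundary walks of the embedding of `M`. -/
def Rot.φ (ρ : Rot M) : Equiv.Perm M.Dart :=
  (SimpleGraph.Dart.symm_involutive.toPerm _).trans ρ.σ

/-- The number of faces of the embedding of `M`. -/
noncomputable def Rot.faces (ρ : Rot M) : ℕ :=
  Nat.card (Quotient (Equiv.Perm.SameCycle.setoid ρ.φ))

/-- `ρ` is a cellular embedding of the connected graph `M` in the closed orientable surface of
genus `g`. -/
structure CellularGenus (ρ : Rot M) (g : ℕ) : Prop where
  connected : M.Connected
  euler : (Nat.card W : ℤ) - Nat.card M.edgeSet + ρ.faces = 2 - 2 * g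

/-- The first dart after `d` around the tail of `d` that belongs to the subgraph `G`. -/
noncomputable def Rot.next (ρ : Rot M) (G : M.Subgraph) (d : M.Dart) : M.Dart :=
  if h : ∃ k : ℕ, G.Adj ((ρ.σ ^ (k + 1)) d).fst ((ρ.σ ^ (k + 1)) d).snd then
    (ρ.σ ^ (Nat.find h + 1)) d else d

/-- The successor of a dart of `G` on the facial boundary walk of `G`, in the embedding of `G`
in the surface: from `uv` go to the first dart of `G` that follows `vu` around `v`. -/
noncomputable def Rot.succ (ρ : Rot M) (G : M.Subgraph) (d : M.Dart) : M.Dart :=
  ρ.next G d.symm

/-- Every facial boundary walk of the embedding of `G` has even length. -/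
def EvenFaced (ρ : Rot M) (G : M.Subgraph) : Prop :=
  ∀ d : M.Dart, G.Adj d.fst d.snd → Even (Function.minimalPeriod (ρ.succ G) d)

/-- `f` is the boundary walk of a face of the embedding of `M`. -/
def Facial (ρ : Rot M) {v : W} (f : M.Walk v v) : Prop :=
  ∃ d : M.Dart, f.darts = List.iterate ρ.φ d (Function.minimalPeriod ρ.φ d)

/-- Elementary homotopies of walks: insertion of an edge traversed forth and back, or of the
boundary walk of a face of `M` (a disc). -/
inductive Elem (ρ : Rot M) {u v : W} : M.Walk u v → M.Walk u v → Prop
  | spur {x y : W} (p : M.Walk u x) (h : M.Adj x y) (q : M.Walk x v) :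
      Elem ρ (p.append q) (p.append (SimpleGraph.Walk.cons h (SimpleGraph.Walk.cons h.symm q)))
  | face {x : W} (p : M.Walk u x) (f : M.Walk x x) (hf : Facial ρ f) (q : M.Walk x v) :
      Elem ρ (p.append q) (p.append (f.append q))

/-- A closed walk is contractible in the surface if it is homotopic to the constant walk. -/
def Contractible (ρ : Rot M) {v : W} (c : M.Walk v v) : Prop :=
  Relation.EqvGen (Elem ρ) c SimpleGraph.Walk.nil

/-- Every cycle of `G` that is noncontractible in the surface has length at least `N`. -/
def EdgeWidthAtLeast (ρ : Rot M) (G : M.Subgraph) (N : ℕ) : Prop :=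
  ∀ (v : W) (c : M.Walk v v), c.IsCycle → (∀ e ∈ c.edges, e ∈ G.edgeSet) →
    ¬ Contractible ρ c → N ≤ c.length

/-- `G` is `k`-list colourable. -/
def ListColourable (G : M.Subgraph) (k : ℕ) : Prop :=
  ∀ (C : Type) (L : G.verts → Finset C), (∀ v, k ≤ (L v).card) →
    ∃ c : G.verts → C, (∀ v, c v ∈ L v) ∧ ∀ u v : G.verts, G.Adj u v → c u ≠ c v

end Pool.Agent.H635EF
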