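import Pool.Agent.H635EF.Hom

set_option autoImplicit false

namespace Pool.Agent.H635EF

open Classical

variable {W : Type} {M : SimpleGraph W} [Fintype W]

theorem sum_vec {u v : W} (p : M.Walk u v) : ∑ e : M.edgeSet, vec p e = (p.length : ZMod 2) := by
  induction p with
  | nil =>
    show ∑ e : M.edgeSet, (((SimpleGraph.Walk.nil : M.Walk _ _).edges.count e.1 : ℕ) : ZMod 2) = _
    simp
  | cons h p ih =>
    rename_i a b c
    have h1 : ∀ e : M.edgeSet, vec (SimpleGraph.Walk.cons h p) e =
        vec p e + (if (⟨s(a, b), h⟩ : M.edgeSet) = e then 1 else 0) := by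
      intro e
      show (((SimpleGraph.Walk.cons h p).edges.count e.1 : ℕ) : ZMod 2) =
        ((p.edges.count e.1 : ℕ) : ZMod 2) + _
      rw [SimpleGraph.Walk.edges_cons, List.count_cons, Nat.cast_add]
      congr 1
      by_cases h2 : (⟨s(a, b), h⟩ : M.edgeSet) = e
      · rw [if_pos h2, if_pos]
        · simp
        · rw [← h2]
          simp
      · rw [if_neg h2, if_neg]
        · simp
        · intro h3
          apply h2
          apply Subtype.ext
          exact beq_iff_eq.1 h3
    rw [Finset.sum_congr rfl (fun e _ => h1 e), Finset.sum_add_distrib, ih,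
      Finset.sum_ite_eq, if_pos (Finset.mem_univ _), SimpleGraph.Walk.length_cons]
    push_cast
    ring

theorem even_len (ρ : Rot M) (G : M.Subgraph) (hG : EvenFaced ρ G) {v : W} (c : M.Walk v v)
    (hcG : ∀ e ∈ c.edges, e ∈ G.edgeSet) (hB : vec c ∈ LinearMap.range (betaM ρ)) :
    Even c.length := by
  have h1 : ∀ e : M.edgeSet, e.1 ∉ G.edgeSet → vec c e = 0 := by
    intro e he
    show ((c.edges.count e.1 : ℕ) : ZMod 2) = 0
    rw [List.count_eq_zero_of_not_mem (fun h => he (hcG _ h))]
    simp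
  obtain ⟨f, hf⟩ := k4 ρ G (vec c) hB h1
  have h2 := sum_vec c
  rw [← hf] at h2
  have h3 : ∑ e : M.edgeSet, betaG ρ G f e = ∑ a : DG G, f (cls (Phi ρ G) a) := by
    rw [← Finset.sum_fiberwise_of_maps_to (s := Finset.univ) (t := Finset.univ)
      (g := fun a : DG G => ed a.1) (fun _ _ => Finset.mem_univ _)]
    apply Finset.sum_congr rfl
    intro e _
    show ∑ a : DG G with a.1.edge = e.1, f (cls (Phi ρ G) a) = _
    apply Finset.sum_congr _ (fun _ _ => rfl)
    ext a
    rw [Finset.mem_filter, Finset.mem_filter]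
    constructor
    · rintro ⟨h, h'⟩
      exact ⟨h, Subtype.ext h'⟩
    · rintro ⟨h, h'⟩
      exact ⟨h, congrArg Subtype.val h'⟩
  have h4 : ∑ a : DG G, f (cls (Phi ρ G) a) = 0 := by
    rw [← Finset.sum_fiberwise_of_maps_to (s := Finset.univ) (t := Finset.univ)
      (g := fun a : DG G => cls (Phi ρ G) a) (fun _ _ => Finset.mem_univ _)]
    apply Finset.sum_eq_zero
    intro q _
    obtain ⟨a, rfl⟩ := Quotient.exists_rep q
    have h5 : ∑ b : DG G with cls (Phi ρ G) b = cls (Phi ρ G) a, f (cls (Phi ρ G) b) =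
        ∑ b : DG G with cls (Phi ρ G) b = cls (Phi ρ G) a, f (cls (Phi ρ G) a) := by
      apply Finset.sum_congr rfl
      intro b hb
      rw [(Finset.mem_filter.1 hb).2]
    have h6 : ∑ b : DG G with cls (Phi ρ G) b = cls (Phi ρ G) a, f (cls (Phi ρ G) b) = 0 := by
      rw [h5, Finset.sum_const, fiber_card, Phi_period]
      obtain ⟨m, hm⟩ := hG a.1 a.2
      rw [hm, add_smul]
      exact CharTwo.add_self_eq_zero _
    exact h6
  rw [h3, h4] at h2
  have h7 : ((c.length : ℕ) : ZMod 2) = 0 := h2.symm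
  rw [ZMod.natCast_eq_zero_iff] at h7
  exact (even_iff_two_dvd).2 h7

theorem cycle_len (S : Finset W) {v : W} (c : M.Walk v v) (hc : c.IsCycle)
    (hS : ∀ d ∈ c.darts, d.snd ∈ S) : c.length ≤ S.card := by
  have h1 : c.support.tail.Nodup := hc.support_nodup
  have h2 : c.support.tail = c.darts.map (fun d => d.snd) := (SimpleGraph.Walk.map_snd_darts c).symm
  have h3 : c.length = c.support.tail.length := by
    rw [h2, List.length_map, SimpleGraph.Walk.length_darts]
  rw [h3, ← List.toFinset_card_of_nodup h1]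
  apply Finset.card_le_card
  intro w hw
  rw [List.mem_toFinset, h2, List.mem_map] at hw
  obtain ⟨d, hd, rfl⟩ := hw
  exact hS d hd

end Pool.Agent.H635EF
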