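import Pool.Agent.H635EF.Chains

set_option autoImplicit false

namespace Pool.Agent.H635EF

open Classical

section aux
variable {W : Type} {M : SimpleGraph W} [Fintype W]

/-! TO PROVE.
PROOFS IN WORDS. k2: the range of b1 contains e_u + e_v for every edge uv (take x the indicator of the edge), hence e_u + e_v for
all u, v by connectedness (induct on a walk), so it contains the |W| - 1 independent vectors e_u + e_r for a fixed r (or: the span
of the range and of e_r is everything), so its dimension is at least |W| - 1; rank-nullity.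
k1: restrict b1 to the chains supported on Q (dimension the number of edges in Q; it is the subspace suppOn Q). The image consists
of vectors y that vanish outside S and have sum 0 (each edge is counted twice in the sum, and 2 = 0), a proper subspace of the
|S|-dimensional space of vectors vanishing outside S, so the rank is at most |S| - 1; rank-nullity. -/

/-- chains supported on `Q` -/
def suppOn (M : SimpleGraph W) (Q : Set (Sym2 W)) : Submodule (ZMod 2) (M.edgeSet → ZMod 2) where
  carrier := {x | ∀ e : M.edgeSet, e.1 ∉ Q → x e = 0}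
  zero_mem' := fun _ _ => rfl
  add_mem' := fun {a b} ha hb e he => by
    show a e + b e = 0
    rw [ha e he, hb e he, add_zero]
  smul_mem' := fun r x hx e he => by
    show r • x e = 0
    rw [hx e he, smul_zero]

theorem k2_single (M : SimpleGraph W) {u v : W} (h : M.Adj u v) :
    (Pi.single u 1 + Pi.single v 1 : W → ZMod 2) ∈ LinearMap.range (b1 M) := by
  let d0 : M.Dart := ⟨(u, v), h⟩
  refine ⟨Pi.single (ed d0) 1, ?_⟩
  ext w
  show ∑ d : M.Dart with d.fst = w, (Pi.single (ed d0) 1 : M.edgeSet → ZMod 2) (ed d) = _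
  rw [Finset.sum_filter]
  have hne : d0 ≠ d0.symm := (d0.symm_ne).symm
  have key : ∀ d : M.Dart, d ∉ ({d0, d0.symm} : Finset M.Dart) →
      (if d.fst = w then (Pi.single (ed d0) 1 : M.edgeSet → ZMod 2) (ed d) else 0) = 0 := by
    intro d hd
    simp only [Finset.mem_insert, Finset.mem_singleton, not_or] at hd
    have : ed d ≠ ed d0 := by
      intro he
      have he' : d.edge = d0.edge := congrArg Subtype.val he
      rw [SimpleGraph.dart_edge_eq_iff] at he'
      rcases he' with h1 | h1
      · exact hd.1 h1
      · exact hd.2 h1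
    simp [Pi.single_eq_of_ne this]
  rw [← Finset.sum_subset (Finset.subset_univ ({d0, d0.symm} : Finset M.Dart))
    (fun d _ hd => key d hd)]
  rw [Finset.sum_pair hne]
  have e1 : ed d0.symm = ed d0 := Subtype.ext (SimpleGraph.Dart.edge_symm d0)
  rw [e1]
  have f1 : d0.fst = u := rfl
  have f2 : d0.symm.fst = v := rfl
  rw [f1, f2]
  simp only [Pi.single_eq_same, Pi.add_apply, Pi.single_apply]
  congr 1
  · by_cases hh : u = w
    · subst hh; simp
    · simp [hh, Ne.symm hh]
  · by_cases hh : v = w
    · subst hh; simp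
    · simp [hh, Ne.symm hh]

theorem k2 (M : SimpleGraph W) (hM : M.Connected) :
    Module.finrank (ZMod 2) (LinearMap.ker (b1 M)) + Fintype.card W ≤
      Fintype.card M.edgeSet + 1 := by
  have hrn := LinearMap.finrank_range_add_finrank_ker (b1 M)
  have hE : Module.finrank (ZMod 2) (M.edgeSet → ZMod 2) = Fintype.card M.edgeSet :=
    Module.finrank_fintype_fun_eq_card _
  have hW : Module.finrank (ZMod 2) (W → ZMod 2) = Fintype.card W :=
    Module.finrank_fintype_fun_eq_card _
  obtain ⟨r⟩ := hM.nonempty
  have hmem : ∀ v, (Pi.single v 1 : W → ZMod 2) ∈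
      LinearMap.range (b1 M) ⊔ Submodule.span (ZMod 2) {(Pi.single r 1 : W → ZMod 2)} := by
    intro v
    obtain ⟨p⟩ := hM.preconnected v r
    induction p with
    | nil => exact Submodule.mem_sup_right (Submodule.mem_span_singleton_self _)
    | @cons a b c hab q ih =>
      have h1 := k2_single M hab
      have h2 : (Pi.single a 1 : W → ZMod 2) = (Pi.single a 1 + Pi.single b 1) + Pi.single b 1 := by
        rw [add_assoc]
        have : (Pi.single b 1 + Pi.single b 1 : W → ZMod 2) = 0 := by
          ext w
          exact CharTwo.add_self_eq_zero _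
        rw [this, add_zero]
      rw [h2]
      exact Submodule.add_mem _ (Submodule.mem_sup_left h1) ih
  have htop : LinearMap.range (b1 M) ⊔ Submodule.span (ZMod 2) {(Pi.single r 1 : W → ZMod 2)} = ⊤ := by
    rw [eq_top_iff]
    intro y _
    have : y = ∑ v, y v • (Pi.single v 1 : W → ZMod 2) := by
      ext w
      simp [Finset.sum_apply, Pi.single_apply]
    rw [this]
    exact Submodule.sum_mem _ (fun v _ => Submodule.smul_mem _ _ (hmem v))
  have h3 := Submodule.finrank_add_le_finrank_add_finrank (LinearMap.range (b1 M))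
    (Submodule.span (ZMod 2) {(Pi.single r 1 : W → ZMod 2)})
  rw [htop, finrank_top, hW] at h3
  have h4 : Module.finrank (ZMod 2) (Submodule.span (ZMod 2) {(Pi.single r 1 : W → ZMod 2)}) ≤ 1 :=
    (finrank_span_le_card ({(Pi.single r 1 : W → ZMod 2)} : Set (W → ZMod 2))).trans (by simp)
  omega

theorem k1_ext (M : SimpleGraph W) (Q : Set (Sym2 W)) :
    Fintype.card {e : M.edgeSet // e.1 ∈ Q} ≤ Module.finrank (ZMod 2) (suppOn M Q) := by
  let f : ({e : M.edgeSet // e.1 ∈ Q} → ZMod 2) →ₗ[ZMod 2] (suppOn M Q) :=
    { toFun := fun y => ⟨fun e => if h : e.1 ∈ Q then y ⟨e, h⟩ else 0, fun e he => by simp [he]⟩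
      map_add' := by
        intro x y
        apply Subtype.ext
        ext e
        by_cases h : e.1 ∈ Q
        · simp [h]
        · simp [h]
      map_smul' := by
        intro r y
        apply Subtype.ext
        ext e
        by_cases h : e.1 ∈ Q
        · simp [h]
        · simp [h] }
  have hf : Function.Injective f := by
    intro x y hxy
    ext ⟨e, he⟩
    have := congrFun (congrArg Subtype.val hxy) e
    simpa [f, he] using this
  have := LinearMap.finrank_le_finrank_of_injective hf
  rwa [Module.finrank_fintype_fun_eq_card] at this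

theorem k1_sum (M : SimpleGraph W) (x : M.edgeSet → ZMod 2) : ∑ v, b1 M x v = 0 := by
  have h1 : ∑ v, b1 M x v = ∑ d : M.Dart, x (ed d) := by
    show ∑ v, ∑ d : M.Dart with d.fst = v, x (ed d) = _
    exact Finset.sum_fiberwise _ _ _
  rw [h1]
  refine Finset.sum_involution (fun d _ => d.symm) ?_ ?_ ?_ ?_
  · intro d _
    have : ed d.symm = ed d := Subtype.ext (SimpleGraph.Dart.edge_symm d)
    rw [this]
    exact CharTwo.add_self_eq_zero _
  · intro d _ _
    exact d.symm_ne
  · intro d _
    exact Finset.mem_univ _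
  · intro d _
    exact d.symm_symm

theorem k1_rank (M : SimpleGraph W) (Q : Set (Sym2 W)) (S : Finset W) (hS : S.Nonempty)
    (hQ : ∀ e : M.edgeSet, e.1 ∈ Q → ∀ v ∈ e.1, v ∈ S) :
    Module.finrank (ZMod 2) (LinearMap.range ((b1 M).domRestrict (suppOn M Q))) + 1 ≤ S.card := by
  let T : (S → ZMod 2) →ₗ[ZMod 2] ZMod 2 := ∑ i : S, LinearMap.proj i
  have hT : ∀ y : S → ZMod 2, T y = ∑ i : S, y i := by
    intro y
    simp [T, LinearMap.sum_apply]
  have hTs : Function.Surjective T := by
    obtain ⟨s, hs⟩ := hS
    intro c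
    refine ⟨Pi.single ⟨s, hs⟩ c, ?_⟩
    rw [hT]
    simp
  have h1 := LinearMap.finrank_range_add_finrank_ker T
  rw [LinearMap.range_eq_top.2 hTs, finrank_top, Module.finrank_self,
    Module.finrank_fintype_fun_eq_card, Fintype.card_coe] at h1
  have hzero : ∀ x : suppOn M Q, ∀ v, v ∉ S → b1 M x.1 v = 0 := by
    intro x v hv
    show ∑ d : M.Dart with d.fst = v, x.1 (ed d) = 0
    refine Finset.sum_eq_zero ?_
    intro d hd
    rw [Finset.mem_filter] at hd
    refine x.2 (ed d) ?_
    intro hq
    apply hv
    refine hQ (ed d) hq v ?_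
    rw [← hd.2]
    show d.fst ∈ d.edge
    have : d.edge = s(d.fst, d.snd) := rfl
    rw [this]
    exact Sym2.mem_mk_left _ _
  let h : LinearMap.range ((b1 M).domRestrict (suppOn M Q)) →ₗ[ZMod 2] (LinearMap.ker T) :=
    { toFun := fun y => ⟨fun i => y.1 i.1, by
        obtain ⟨y, x, rfl⟩ := y
        rw [LinearMap.mem_ker, hT]
        have h2 := k1_sum M x.1
        rw [← Finset.sum_subset (Finset.subset_univ S) (fun v _ hv => hzero x v hv)] at h2
        rw [← h2]
        exact Finset.sum_coe_sort S (fun v => b1 M x.1 v)⟩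
      map_add' := by
        intro x y
        rfl
      map_smul' := by
        intro r y
        rfl }
  have hh : Function.Injective h := by
    rintro ⟨y, x, rfl⟩ ⟨y', x', rfl⟩ hxy
    apply Subtype.ext
    ext v
    show b1 M x.1 v = b1 M x'.1 v
    by_cases hv : v ∈ S
    · exact congrFun (congrArg Subtype.val hxy) ⟨v, hv⟩
    · rw [hzero x v hv, hzero x' v hv]
  have h3 := LinearMap.finrank_le_finrank_of_injective hh
  omega

theorem k1 (M : SimpleGraph W) (Q : Set (Sym2 W)) (S : Finset W) (hS : S.Nonempty)
    (hQ : ∀ e : M.edgeSet, e.1 ∈ Q → ∀ v ∈ e.1, v ∈ S) :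
    Fintype.card {e : M.edgeSet // e.1 ∈ Q} + 1 ≤
      Module.finrank (ZMod 2) (LinearMap.ker (b1 M) ⊓ suppOn M Q : Submodule (ZMod 2) (M.edgeSet → ZMod 2))
        + S.card := by
  have h1 := k1_ext M Q
  have h2 := k1_rank M Q S hS hQ
  have h3 := LinearMap.finrank_range_add_finrank_ker ((b1 M).domRestrict (suppOn M Q))
  let g : LinearMap.ker ((b1 M).domRestrict (suppOn M Q)) →ₗ[ZMod 2]
      (LinearMap.ker (b1 M) ⊓ suppOn M Q : Submodule (ZMod 2) (M.edgeSet → ZMod 2)) :=
    { toFun := fun x => ⟨x.1.1, ⟨x.2, x.1.2⟩⟩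
      map_add' := by
        intro x y
        rfl
      map_smul' := by
        intro r y
        rfl }
  have hg : Function.Injective g := by
    intro x y hxy
    apply Subtype.ext
    apply Subtype.ext
    have hz := congrArg (fun z => z.1) hxy
    exact hz
  have h4 := LinearMap.finrank_le_finrank_of_injective hg
  omega

end aux

end Pool.Agent.H635EF
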