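import Pool.Agent.H635EF.Beta2
import Pool.Agent.H635EF.JobC

set_option autoImplicit false

namespace Pool.Agent.H635EF

open Classical

variable {W : Type} {M : SimpleGraph W} [Fintype W]

/-- the edges of `H` -/
abbrev EG (H : M.Subgraph) : Type := {e : M.edgeSet // e.1 ∈ H.edgeSet}

theorem zb_le (ρ : Rot M) (H : M.Subgraph) :
    ((LinearMap.ker (b1 M) ⊓ suppOn M H.edgeSet) ⊓ LinearMap.range (betaM ρ) :
      Submodule (ZMod 2) (M.edgeSet → ZMod 2)) ≤ LinearMap.range (betaG ρ H) := by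
  intro x hx
  rw [Submodule.mem_inf, Submodule.mem_inf] at hx
  exact k4 ρ H x hx.2 hx.1.2

theorem edge_mem_S (H : M.Subgraph) (S : Finset W)
    (hH : ∀ u v : W, H.Adj u v → u ∈ S) :
    ∀ e : M.edgeSet, e.1 ∈ H.edgeSet → ∀ v ∈ e.1, v ∈ S := by
  intro e he v hv
  obtain ⟨w, hw⟩ := Sym2.mem_iff_exists.1 hv
  rw [hw] at he
  exact hH v w (SimpleGraph.Subgraph.mem_edgeSet.1 he)

theorem k6 (ρ : Rot M) (g : ℕ) (hg : CellularGenus ρ g) (H : M.Subgraph) (S : Finset W)
    (hS : S.Nonempty) (hH : ∀ u v : W, H.Adj u v → u ∈ S) (hne : Nonempty (DG H)) :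
    Fintype.card (EG H) + 2 ≤ Nat.card (Orb (Phi ρ H)) + S.card + 2 * g := by
  have h1 := k1 M H.edgeSet S hS (edge_mem_S H S hH)
  have h2 := k2 M hg.connected
  have h3 := k3 ρ hg.connected
  have h5 := k5 ρ H hne
  set Z : Submodule (ZMod 2) (M.edgeSet → ZMod 2) :=
    LinearMap.ker (b1 M) ⊓ suppOn M H.edgeSet with hZ
  set B : Submodule (ZMod 2) (M.edgeSet → ZMod 2) := LinearMap.range (betaM ρ) with hB
  have h6 := Submodule.finrank_sup_add_finrank_inf_eq Z B
  have h7 : Z ⊔ B ≤ LinearMap.ker (b1 M) := by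
    apply sup_le inf_le_left
    intro x hx
    obtain ⟨f, rfl⟩ := hx
    exact LinearMap.mem_ker.2 (betaM_ker ρ f)
  have h8 := Submodule.finrank_mono h7
  have h9 := Submodule.finrank_mono (zb_le ρ H)
  have h10 := hg.euler
  rw [Nat.card_eq_fintype_card, Nat.card_eq_fintype_card] at h10
  have h11 : Module.finrank (ZMod 2) (Z ⊓ B : Submodule (ZMod 2) (M.edgeSet → ZMod 2)) ≤
    Module.finrank (ZMod 2) (LinearMap.range (betaG ρ H)) := h9
  change Fintype.card (EG H) + 1 ≤ _ at h1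
  omega

theorem k7 (ρ : Rot M) (H : M.Subgraph) (S : Finset W)
    (hS : S.Nonempty) (hH : ∀ u v : W, H.Adj u v → u ∈ S) (hne : Nonempty (DG H))
    (hZB : ∀ x : M.edgeSet → ZMod 2, b1 M x = 0 → (∀ e : M.edgeSet, e.1 ∉ H.edgeSet → x e = 0) →
      x ∈ LinearMap.range (betaM ρ)) :
    Fintype.card (EG H) + 2 ≤ Nat.card (Orb (Phi ρ H)) + S.card := by
  have h1 := k1 M H.edgeSet S hS (edge_mem_S H S hH)
  have h5 := k5 ρ H hne
  have h7 : (LinearMap.ker (b1 M) ⊓ suppOn M H.edgeSet : Submodule (ZMod 2) (M.edgeSet → ZMod 2)) ≤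
      LinearMap.range (betaG ρ H) := by
    intro x hx
    rw [Submodule.mem_inf] at hx
    exact k4 ρ H x (hZB x (LinearMap.mem_ker.1 hx.1) hx.2) hx.2
  have h8 := Submodule.finrank_mono h7
  change Fintype.card (EG H) + 1 ≤ _ at h1
  omega

theorem card_DG (H : M.Subgraph) : Fintype.card (DG H) = 2 * Fintype.card (EG H) := by
  have hf : ∀ d : DG H, (ed d.1).1 ∈ H.edgeSet := fun d =>
    SimpleGraph.Subgraph.mem_edgeSet.2 d.2
  rw [← Finset.card_univ, Finset.card_eq_sum_card_fiberwise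
    (f := fun d : DG H => (⟨ed d.1, hf d⟩ : EG H)) (t := Finset.univ)
    (fun _ _ => Finset.mem_coe.2 (Finset.mem_univ _))]
  have h2 : ∀ e : EG H, (Finset.univ.filter
      fun d : DG H => (⟨ed d.1, hf d⟩ : EG H) = e).card = 2 := by
    intro e
    obtain ⟨⟨e, he⟩, heH⟩ := e
    induction e with
    | _ u v =>
    have huv : H.Adj u v := SimpleGraph.Subgraph.mem_edgeSet.1 heH
    set d0 : DG H := ⟨SimpleGraph.Dart.mk (u, v) he, huv⟩ with hd0
    set d1 : DG H := ⟨SimpleGraph.Dart.mk (v, u) he.symm, huv.symm⟩ with hd1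
    have hne : d0 ≠ d1 := by
      intro h
      have h3 := congrArg (fun d : DG H => d.1.fst) h
      exact huv.ne h3
    have h4 : (Finset.univ.filter
      fun d : DG H => (⟨ed d.1, hf d⟩ : EG H) = ⟨⟨s(u, v), he⟩, heH⟩) = {d0, d1} := by
      ext d
      rw [Finset.mem_filter, Finset.mem_insert, Finset.mem_singleton]
      constructor
      · rintro ⟨_, h⟩
        have h5 : d.1.edge = s(u, v) := congrArg (fun e : EG H => e.1.1) h
        have h6 : d.1.edge = (d0.1).edge := h5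
        rw [SimpleGraph.dart_edge_eq_iff] at h6
        rcases h6 with h6 | h6
        · exact Or.inl (Subtype.ext h6)
        · exact Or.inr (Subtype.ext h6)
      · rintro (rfl | rfl)
        · exact ⟨Finset.mem_univ _, rfl⟩
        · refine ⟨Finset.mem_univ _, ?_⟩
          apply Subtype.ext
          apply Subtype.ext
          exact Sym2.eq_swap
    rw [h4, Finset.card_pair hne]
  rw [Finset.sum_congr rfl (fun e _ => h2 e), Finset.sum_const, Finset.card_univ, smul_eq_mul,
    mul_comm]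

end Pool.Agent.H635EF
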