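import Pool.Agent.H635EF.Genus

set_option autoImplicit false

namespace Pool.Agent.H635EF

open Classical

theorem period_pos {A : Type} [Fintype A] (π : Equiv.Perm A) (a : A) :
    0 < Function.minimalPeriod π a := by
  apply Function.minimalPeriod_pos_of_mem_periodicPts
  refine ⟨orderOf π, orderOf_pos π, ?_⟩
  unfold Function.IsPeriodicPt Function.IsFixedPt
  rw [Equiv.Perm.iterate_eq_pow, pow_orderOf_eq_one]
  rfl

theorem iter_nodup {A : Type} [Fintype A] (π : Equiv.Perm A) (a : A) :
    (List.iterate π a (Function.minimalPeriod π a)).Nodup := by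
  rw [← List.range_map_iterate]
  apply List.Nodup.map_on _ List.nodup_range
  intro x hx y hy h
  rw [List.mem_range] at hx hy
  exact (Function.iterate_injOn_Iio_minimalPeriod (f := π) (x := a)) hx hy h

theorem iter_mem {A : Type} [Fintype A] (π : Equiv.Perm A) (a b : A) :
    b ∈ List.iterate π a (Function.minimalPeriod π a) ↔ cls π b = cls π a := by
  rw [List.mem_iterate, cls_eq]
  constructor
  · rintro ⟨m, _, rfl⟩
    rw [Equiv.Perm.iterate_eq_pow]
    exact (Equiv.Perm.sameCycle_pow_left).2 (Equiv.Perm.SameCycle.refl _ _)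
  · intro h
    obtain ⟨n, hn⟩ := h.symm.exists_nat_pow_eq
    refine ⟨n % Function.minimalPeriod π a, Nat.mod_lt _ (period_pos π a), ?_⟩
    rw [Function.iterate_mod_minimalPeriod_eq, Equiv.Perm.iterate_eq_pow, hn]

theorem fiber_card {A : Type} [Fintype A] (π : Equiv.Perm A) (a : A) :
    (Finset.univ.filter fun b : A => cls π b = cls π a).card = Function.minimalPeriod π a := by
  have h : (Finset.univ.filter fun b : A => cls π b = cls π a) =
      (List.iterate π a (Function.minimalPeriod π a)).toFinset := by
    ext b
    rw [Finset.mem_filter, List.mem_toFinset, iter_mem]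
    simp
  rw [h, List.toFinset_card_of_nodup (iter_nodup π a), List.length_iterate]

variable {W : Type} {M : SimpleGraph W} [Fintype W]

theorem vec_append {u v w : W} (p : M.Walk u v) (q : M.Walk v w) :
    vec (p.append q) = vec p + vec q := by
  funext e
  show (((p.append q).edges.count e.1 : ℕ) : ZMod 2) = (p.edges.count e.1 : ℕ) + (q.edges.count e.1 : ℕ)
  rw [SimpleGraph.Walk.edges_append, List.count_append, Nat.cast_add]

theorem vec_facial (ρ : Rot M) {v : W} (f : M.Walk v v) (hf : Facial ρ f) :
    vec f ∈ LinearMap.range (betaM ρ) := by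
  obtain ⟨d, hd⟩ := hf
  refine ⟨fun q => if q = cls ρ.φ d then 1 else 0, ?_⟩
  funext e
  show ∑ a : M.Dart with a.edge = e.1, (if cls ρ.φ a = cls ρ.φ d then (1 : ZMod 2) else 0) =
    ((f.edges.count e.1 : ℕ) : ZMod 2)
  have h1 : f.edges.count e.1 =
      (Finset.univ.filter fun a : M.Dart => a.edge = e.1 ∧ cls ρ.φ a = cls ρ.φ d).card := by
    have h2 : f.edges = f.darts.map SimpleGraph.Dart.edge := rfl
    rw [h2, hd, List.count, List.countP_map, List.countP_eq_length_filter]
    have h3 : ((List.iterate ρ.φ d (Function.minimalPeriod ρ.φ d)).filter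
        ((fun x => x == e.1) ∘ SimpleGraph.Dart.edge)).Nodup := (iter_nodup ρ.φ d).filter _
    rw [← List.toFinset_card_of_nodup h3]
    congr 1
    ext a
    rw [List.mem_toFinset, List.mem_filter, iter_mem, Finset.mem_filter]
    simp [and_comm]
  rw [h1, Finset.card_eq_sum_ones, Nat.cast_sum, ← Finset.sum_filter, Finset.filter_filter]
  simp

theorem elem_vec (ρ : Rot M) {u v : W} (p q : M.Walk u v) (h : Elem ρ p q) :
    vec q - vec p ∈ LinearMap.range (betaM ρ) := by
  cases h with
  | spur p h q =>
    have h1 : vec (p.append (SimpleGraph.Walk.cons h (SimpleGraph.Walk.cons h.symm q))) -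
        vec (p.append q) = 0 := by
      rw [vec_append, vec_append]
      funext e
      show (vec p e + vec (SimpleGraph.Walk.cons h (SimpleGraph.Walk.cons h.symm q)) e) -
        (vec p e + vec q e) = 0
      have h2 : vec (SimpleGraph.Walk.cons h (SimpleGraph.Walk.cons h.symm q)) e = vec q e := by
        show (((SimpleGraph.Walk.cons h (SimpleGraph.Walk.cons h.symm q)).edges.count e.1 : ℕ) :
          ZMod 2) = ((q.edges.count e.1 : ℕ) : ZMod 2)
        rw [SimpleGraph.Walk.edges_cons, SimpleGraph.Walk.edges_cons, List.count_cons,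
          List.count_cons, Sym2.eq_swap]
        split_ifs
        · push_cast
          rw [add_assoc]
          have : (1 : ZMod 2) + 1 = 0 := CharTwo.add_self_eq_zero 1
          rw [this, add_zero]
        · simp
      rw [h2]
      ring
    rw [h1]
    exact Submodule.zero_mem _
  | face p f hf q =>
    rw [vec_append, vec_append, vec_append]
    have h1 : vec p + (vec f + vec q) - (vec p + vec q) = vec f := by ring
    rw [h1]
    exact vec_facial ρ f hf

theorem contr_vec (ρ : Rot M) {v : W} (c : M.Walk v v) (h : Contractible ρ c) :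
    vec c ∈ LinearMap.range (betaM ρ) := by
  have key : ∀ p q : M.Walk v v, Relation.EqvGen (Elem ρ) p q →
      vec q - vec p ∈ LinearMap.range (betaM ρ) := by
    intro p q h
    induction h with
    | rel p q h => exact elem_vec ρ p q h
    | refl p => rw [sub_self]; exact Submodule.zero_mem _
    | symm p q _ ih =>
      have h1 : vec p - vec q = -(vec q - vec p) := by ring
      rw [h1]
      exact Submodule.neg_mem _ ih
    | trans p q r _ _ ih1 ih2 =>
      have h1 : vec r - vec p = (vec q - vec p) + (vec r - vec q) := by ring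
      rw [h1]
      exact Submodule.add_mem _ ih1 ih2
  have h1 := key _ _ h
  have h2 : vec (SimpleGraph.Walk.nil : M.Walk v v) = 0 := by
    funext e
    show (((SimpleGraph.Walk.nil : M.Walk v v).edges.count e.1 : ℕ) : ZMod 2) = 0
    simp
  rw [h2, zero_sub] at h1
  exact (Submodule.neg_mem_iff _).1 h1

end Pool.Agent.H635EF
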