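import Pool.Agent.H635EF.Defs

set_option autoImplicit false

namespace Pool.Agent.H635EF

/-- `L`-colourings of the subgraph induced on `S` -/
def ColOn {W C : Type} (G : SimpleGraph W) (L : W → Finset C) (S : Finset W) : Prop :=
  ∃ c : W → C, (∀ v ∈ S, c v ∈ L v) ∧ ∀ u ∈ S, ∀ v ∈ S, G.Adj u v → c u ≠ c v

/-! TO PROVE.
PROOFS IN WORDS. crit_deg: if v has at most 3 neighbours in S, colour S minus v, then give v a colour of L v not used by its
neighbours. crit_four: suppose all four have at most 4 neighbours in S. Colour S minus {a,b,c,d}. Each of the four has two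
neighbours on the 4-cycle, hence at most 2 in the rest, so at least 2 colours of its list remain. A 4-cycle is 2-choosable: lists
A, B, C, D of size at least 2 on a, b, c, d (a,c not adjacent, b,d not adjacent). If A and C meet, give a and c a common colour.
Otherwise at most one pair (x,y) in A x C has {x,y} containing B and at most one has {x,y} containing D, and there are at least 4
pairs. -/

theorem crit_deg_choose {C : Type} (A B E D : Finset C) (hA : 2 ≤ A.card) (hB : 2 ≤ B.card)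
    (hE : 2 ≤ E.card) (hD : 2 ≤ D.card) :
    ∃ x ∈ A, ∃ y ∈ B, ∃ z ∈ E, ∃ w ∈ D, x ≠ y ∧ y ≠ z ∧ z ≠ w ∧ w ≠ x := by
  classical
  obtain ⟨a1, ha1, a2, ha2, ha⟩ := Finset.one_lt_card.1 hA
  obtain ⟨b1, hb1, b2, hb2, hb⟩ := Finset.one_lt_card.1 hB
  obtain ⟨c1, hc1, c2, hc2, hc⟩ := Finset.one_lt_card.1 hE
  obtain ⟨d1, hd1, d2, hd2, hd⟩ := Finset.one_lt_card.1 hD
  -- a pair `x ∈ A`, `z ∈ E` is good as soon as neither `B` nor `D` is contained in `{x, z}`
  have key : ∀ x ∈ A, ∀ z ∈ E, (∃ y ∈ B, y ≠ x ∧ y ≠ z) → (∃ w ∈ D, w ≠ x ∧ w ≠ z) →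
      ∃ x ∈ A, ∃ y ∈ B, ∃ z ∈ E, ∃ w ∈ D, x ≠ y ∧ y ≠ z ∧ z ≠ w ∧ w ≠ x := by
    rintro x hx z hz ⟨y, hy, h1, h2⟩ ⟨w, hw, h3, h4⟩
    exact ⟨x, hx, y, hy, z, hz, w, hw, h1.symm, h2, h4.symm, h3⟩
  by_cases hcom : ∃ x, x ∈ A ∧ x ∈ E
  · obtain ⟨x, hxA, hxE⟩ := hcom
    apply key x hxA x hxE
    · by_cases h : b1 = x
      · exact ⟨b2, hb2, fun h' => hb (h.trans h'.symm), fun h' => hb (h.trans h'.symm)⟩
      · exact ⟨b1, hb1, h, h⟩
    · by_cases h : d1 = x
      · exact ⟨d2, hd2, fun h' => hd (h.trans h'.symm), fun h' => hd (h.trans h'.symm)⟩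
      · exact ⟨d1, hd1, h, h⟩
  · have hdis : ∀ x ∈ A, ∀ z ∈ E, x ≠ z := by
      intro x hx z hz h
      exact hcom ⟨x, hx, h ▸ hz⟩
    have e11 := hdis a1 ha1 c1 hc1
    have e12 := hdis a1 ha1 c2 hc2
    have e21 := hdis a2 ha2 c1 hc1
    have e22 := hdis a2 ha2 c2 hc2
    by_contra hcon
    have k : ∀ x ∈ A, ∀ z ∈ E, (∀ y ∈ B, y = x ∨ y = z) ∨ (∀ w ∈ D, w = x ∨ w = z) := by
      intro x hx z hz
      by_contra hh
      push Not at hh
      obtain ⟨⟨y, hy, h1, h2⟩, ⟨w, hw, h3, h4⟩⟩ := hh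
      exact hcon (key x hx z hz ⟨y, hy, h1, h2⟩ ⟨w, hw, h3, h4⟩)
    have k11 := k a1 ha1 c1 hc1
    have k12 := k a1 ha1 c2 hc2
    have k21 := k a2 ha2 c1 hc1
    have k22 := k a2 ha2 c2 hc2
    -- no two of the pairs contain the same set
    have n : ∀ (X : Finset C) (x1 x2 : C), x1 ∈ X → x2 ∈ X → x1 ≠ x2 → ∀ p q p' q' : C,
        (∀ y ∈ X, y = p ∨ y = q) → (∀ y ∈ X, y = p' ∨ y = q') →
        (p = p' ∧ q = q') ∨ (p = q' ∧ q = p') := by
      intro X x1 x2 h1 h2 h12 p q p' q' hp hq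
      have := hp x1 h1
      have := hp x2 h2
      have := hq x1 h1
      have := hq x2 h2
      grind
    have nB := n B b1 b2 hb1 hb2 hb
    have nD := n D d1 d2 hd1 hd2 hd
    rcases k11 with k11 | k11
    · rcases k12 with k12 | k12
      · have := nB _ _ _ _ k11 k12; grind
      · rcases k21 with k21 | k21
        · have := nB _ _ _ _ k11 k21; grind
        · have := nD _ _ _ _ k12 k21; grind
    · rcases k12 with k12 | k12
      · rcases k21 with k21 | k21
        · have := nB _ _ _ _ k12 k21; grind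
        · have := nD _ _ _ _ k11 k21; grind
      · have := nD _ _ _ _ k11 k12; grind

open Classical in
theorem crit_deg_ext {W C : Type} (G : SimpleGraph W) (L : W → Finset C) (S T : Finset W)
    (c f : W → C) (hc : ∀ v ∈ T, c v ∈ L v)
    (hcp : ∀ u ∈ T, ∀ v ∈ T, G.Adj u v → c u ≠ c v)
    (hf : ∀ v ∈ S, v ∉ T → f v ∈ L v ∧ ∀ u ∈ T, G.Adj v u → f v ≠ c u)
    (hfp : ∀ u ∈ S, u ∉ T → ∀ v ∈ S, v ∉ T → G.Adj u v → f u ≠ f v) : ColOn G L S := by
  refine ⟨fun v => if v ∈ T then c v else f v, ?_, ?_⟩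
  · intro v hv
    by_cases h : v ∈ T
    · simp only [h, if_true]; exact hc v h
    · simp only [h, if_false]; exact (hf v hv h).1
  · intro u hu v hv huv
    by_cases h1 : u ∈ T <;> by_cases h2 : v ∈ T <;> simp only [h1, h2, if_true, if_false]
    · exact hcp u h1 v h2 huv
    · exact ((hf v hv h2).2 u h1 huv.symm).symm
    · exact (hf u hu h1).2 v h2 huv
    · exact hfp u hu h1 v hv h2 huv

open Classical in
theorem crit_deg {W C : Type} [Fintype W] (G : SimpleGraph W) (L : W → Finset C) (S : Finset W)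
    (hL : ∀ v ∈ S, 4 ≤ (L v).card) (hS : ¬ ColOn G L S) (hmin : ∀ T, T ⊂ S → ColOn G L T)
    (v : W) (hv : v ∈ S) : 4 ≤ (S.filter (G.Adj v)).card := by
  by_contra hlt
  push Not at hlt
  obtain ⟨c, hc, hcp⟩ := hmin (S.erase v) (Finset.erase_ssubset hv)
  have hU : (((S.erase v).filter (G.Adj v)).image c).card < (L v).card := by
    refine lt_of_le_of_lt Finset.card_image_le (lt_of_le_of_lt (Finset.card_le_card ?_)
      (lt_of_lt_of_le hlt (hL v hv)))
    exact Finset.filter_subset_filter _ (Finset.erase_subset _ _)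
  obtain ⟨x, hx, hxU⟩ := Finset.exists_mem_notMem_of_card_lt_card hU
  apply hS
  refine crit_deg_ext G L S (S.erase v) c (fun _ => x) hc hcp ?_ ?_
  · intro w hw hwT
    have hwv : w = v := by
      by_contra hne
      exact hwT (Finset.mem_erase.2 ⟨hne, hw⟩)
    subst hwv
    refine ⟨hx, ?_⟩
    intro u hu hadj he
    exact hxU (Finset.mem_image.2 ⟨u, Finset.mem_filter.2 ⟨hu, hadj⟩, he.symm⟩)
  · intro u hu huT w hw hwT hadj
    have h1 : u = v := by
      by_contra hne
      exact huT (Finset.mem_erase.2 ⟨hne, hu⟩)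
    have h2 : w = v := by
      by_contra hne
      exact hwT (Finset.mem_erase.2 ⟨hne, hw⟩)
    rw [h1, h2] at hadj
    exact absurd hadj (G.loopless.irrefl v)

open Classical in
theorem crit_four_aux {W C : Type} (G : SimpleGraph W) (L : W → Finset C) (S T : Finset W)
    (c : W → C) (hTS : T ⊆ S) (v p q : W) (hL : 4 ≤ (L v).card)
    (hp : p ∈ S) (hq : q ∈ S) (hpT : p ∉ T) (hqT : q ∉ T) (hpq : p ≠ q) (hvp : G.Adj v p)
    (hvq : G.Adj v q) (hdeg : (S.filter (G.Adj v)).card < 5) :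
    2 ≤ (L v \ ((T.filter (G.Adj v)).image c)).card := by
  have h1 : (T.filter (G.Adj v)).card + 2 ≤ (S.filter (G.Adj v)).card := by
    have h2 : (insert p (insert q (T.filter (G.Adj v)))).card = (T.filter (G.Adj v)).card + 2 := by
      rw [Finset.card_insert_of_notMem, Finset.card_insert_of_notMem]
      · intro h; exact hqT (Finset.mem_filter.1 h).1
      · intro h
        rcases Finset.mem_insert.1 h with h | h
        · exact hpq h
        · exact hpT (Finset.mem_filter.1 h).1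
    rw [← h2]
    apply Finset.card_le_card
    intro w hw
    rcases Finset.mem_insert.1 hw with h | h
    · subst h; exact Finset.mem_filter.2 ⟨hp, hvp⟩
    rcases Finset.mem_insert.1 h with h | h
    · subst h; exact Finset.mem_filter.2 ⟨hq, hvq⟩
    · exact Finset.mem_filter.2 ⟨hTS (Finset.mem_filter.1 h).1, (Finset.mem_filter.1 h).2⟩
  have h3 : ((T.filter (G.Adj v)).image c).card ≤ 2 := by
    refine le_trans Finset.card_image_le ?_
    omega
  have h4 := Finset.le_card_sdiff ((T.filter (G.Adj v)).image c) (L v)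
  omega

open Classical in
theorem crit_four {W C : Type} [Fintype W] (G : SimpleGraph W) (L : W → Finset C) (S : Finset W)
    (hL : ∀ v ∈ S, 4 ≤ (L v).card) (hS : ¬ ColOn G L S) (hmin : ∀ T, T ⊂ S → ColOn G L T)
    (a b c d : W) (ha : a ∈ S) (hb : b ∈ S) (hc : c ∈ S) (hd : d ∈ S)
    (hab : G.Adj a b) (hbc : G.Adj b c) (hcd : G.Adj c d) (hda : G.Adj d a)
    (hac : a ≠ c) (hbd : b ≠ d) (hnac : ¬ G.Adj a c) (hnbd : ¬ G.Adj b d) :
    5 ≤ (S.filter (G.Adj a)).card ∨ 5 ≤ (S.filter (G.Adj b)).card ∨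
      5 ≤ (S.filter (G.Adj c)).card ∨ 5 ≤ (S.filter (G.Adj d)).card := by
  by_contra hlt
  push Not at hlt
  obtain ⟨h1, h2, h3, h4⟩ := hlt
  set T := S \ {a, b, c, d} with hT
  have hTS : T ⊆ S := Finset.sdiff_subset
  have hmT : ∀ v, v ∈ T ↔ v ∈ S ∧ v ≠ a ∧ v ≠ b ∧ v ≠ c ∧ v ≠ d := by
    intro v; rw [hT]; simp [Finset.mem_sdiff]
  have haT : a ∉ T := by rw [hmT]; tauto
  have hbT : b ∉ T := by rw [hmT]; tauto
  have hcT : c ∉ T := by rw [hmT]; tauto
  have hdT : d ∉ T := by rw [hmT]; tauto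
  have hss : T ⊂ S := (Finset.ssubset_iff_of_subset hTS).2 ⟨a, ha, haT⟩
  obtain ⟨c0, hc0, hcp⟩ := hmin T hss
  have A1 := crit_four_aux G L S T c0 hTS a b d (hL a ha) hb hd hbT hdT hbd hab hda.symm h1
  have A2 := crit_four_aux G L S T c0 hTS b a c (hL b hb) ha hc haT hcT hac hab.symm hbc h2
  have A3 := crit_four_aux G L S T c0 hTS c b d (hL c hc) hb hd hbT hdT hbd hbc.symm hcd h3
  have A4 := crit_four_aux G L S T c0 hTS d a c (hL d hd) ha hc haT hcT hac hda hcd.symm h4
  obtain ⟨x, hx, y, hy, z, hz, w, hw, hxy, hyz, hzw, hwx⟩ := crit_deg_choose _ _ _ _ A1 A2 A3 A4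
  have nab := hab.ne
  have nbc := hbc.ne
  have ncd := hcd.ne
  have nda := hda.ne
  set f : W → C := fun v => if v = a then x else if v = b then y else if v = c then z else w with hf
  have fa : f a = x := by simp [hf]
  have fb : f b = y := by simp [hf, nab.symm]
  have fc : f c = z := by simp [hf, hac.symm, nbc.symm]
  have fd : f d = w := by simp [hf, nda, hbd.symm, ncd.symm]
  have hcase : ∀ v, v ∈ S → v ∉ T → v = a ∨ v = b ∨ v = c ∨ v = d := by
    intro v hv hvT
    rw [hmT] at hvT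
    tauto
  have hsd : ∀ v g, g ∈ L v \ ((T.filter (G.Adj v)).image c0) →
      g ∈ L v ∧ ∀ u ∈ T, G.Adj v u → g ≠ c0 u := by
    intro v g hg
    rw [Finset.mem_sdiff] at hg
    refine ⟨hg.1, ?_⟩
    intro u hu hadj he
    exact hg.2 (Finset.mem_image.2 ⟨u, Finset.mem_filter.2 ⟨hu, hadj⟩, he.symm⟩)
  apply hS
  refine crit_deg_ext G L S T c0 f hc0 hcp ?_ ?_
  · intro v hv hvT
    rcases hcase v hv hvT with h | h | h | h
    · subst h; rw [fa]; exact hsd _ _ hx
    · subst h; rw [fb]; exact hsd _ _ hy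
    · subst h; rw [fc]; exact hsd _ _ hz
    · subst h; rw [fd]; exact hsd _ _ hw
  · intro u hu huT v hv hvT hadj
    have irr : ∀ t, ¬ G.Adj t t := fun t => G.loopless.irrefl t
    rcases hcase u hu huT with h | h | h | h <;> rcases hcase v hv hvT with h' | h' | h' | h' <;>
      rw [h, h'] at hadj ⊢ <;> simp only [fa, fb, fc, fd]
    · exact absurd hadj (irr _)
    · exact hxy
    · exact absurd hadj hnac
    · exact hwx.symm
    · exact hxy.symm
    · exact absurd hadj (irr _)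
    · exact hyz
    · exact absurd hadj hnbd
    · exact absurd hadj.symm hnac
    · exact hyz.symm
    · exact absurd hadj (irr _)
    · exact hzw
    · exact hwx
    · exact absurd hadj.symm hnbd
    · exact hzw.symm
    · exact absurd hadj (irr _)

end Pool.Agent.H635EF
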