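import Pool.Agent.H635EF.Chains

set_option autoImplicit false

namespace Pool.Agent.H635EF

open Classical

section aux
variable {W : Type} {M : SimpleGraph W} [Fintype W]

/-! TO PROVE.
PROOF IN WORDS (the cycle space mod 2 is generated by the cycles). Strong induction on the number of edges e with x e ≠ 0. If x = 0
done. Otherwise let K be the subgraph of M (on all of W) with edge set the support of x. Since b1 M x = 0, every vertex has even
degree in K, so every vertex of K with an edge has degree at least 2; a longest path (or: follow the edges) shows that K has a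
cycle c (or: if K is acyclic it has a vertex of degree 1; or: an edge of K that is a bridge contradicts parity of the degrees on
one side). Map c to M. Its edges are in the support of x, hence in Q, so vec c is in B by h. b1 M (vec c) = 0 and the support of
x + vec c (= x - vec c) is the support of x minus the edges of c, strictly smaller. Induct, and x = (x + vec c) + vec c. -/

theorem cycles_span_dart (M : SimpleGraph W) (d₀ : M.Dart) (w : W) :
    b1 M (Pi.single (ed d₀) 1) w = (if d₀.fst = w then 1 else 0) + (if d₀.snd = w then 1 else 0) := by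
  have h0 : b1 M (Pi.single (ed d₀) 1) w =
      ∑ d : M.Dart with d.fst = w, (Pi.single (ed d₀) (1 : ZMod 2) : M.edgeSet → ZMod 2) (ed d) := rfl
  rw [h0]
  have h1 : ∀ d : M.Dart, (Pi.single (ed d₀) (1 : ZMod 2) : M.edgeSet → ZMod 2) (ed d) =
      if d = d₀ ∨ d = d₀.symm then 1 else 0 := by
    intro d
    rw [Pi.single_apply]
    refine if_congr ?_ rfl rfl
    rw [← SimpleGraph.dart_edge_eq_iff]
    exact Subtype.ext_iff
  rw [Finset.sum_filter]
  have h2 : ∀ d : M.Dart, (if d.fst = w then
      (Pi.single (ed d₀) (1 : ZMod 2) : M.edgeSet → ZMod 2) (ed d) else 0) =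
      if (d = d₀ ∨ d = d₀.symm) then (if d.fst = w then 1 else 0) else 0 := by
    intro d
    rw [h1]
    by_cases ha : d.fst = w <;> by_cases hb : (d = d₀ ∨ d = d₀.symm) <;> simp [ha, hb]
  rw [Finset.sum_congr rfl (fun d _ => h2 d), ← Finset.sum_filter]
  have h3 : (Finset.univ.filter (fun d : M.Dart => d = d₀ ∨ d = d₀.symm)) = {d₀, d₀.symm} := by
    ext d
    simp
  rw [h3, Finset.sum_pair (SimpleGraph.Dart.symm_ne d₀).symm]
  rfl

theorem cycles_span_cons (M : SimpleGraph W) {u v w : W} (h : M.Adj u v) (p : M.Walk v w) :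
    vec (SimpleGraph.Walk.cons h p) = Pi.single (ed ⟨(u, v), h⟩) 1 + vec p := by
  funext e
  rw [Pi.add_apply, Pi.single_apply]
  unfold vec
  rw [SimpleGraph.Walk.edges_cons, List.count_cons]
  have h1 : (s(u, v) == e.1) = true ↔ e = ed ⟨(u, v), h⟩ := by
    rw [beq_iff_eq]
    constructor
    · intro h2
      exact Subtype.ext h2.symm
    · intro h2
      rw [h2]
      rfl
  by_cases h2 : e = ed ⟨(u, v), h⟩
  · rw [if_pos (h1.2 h2), if_pos h2]
    push_cast
    ring
  · rw [if_neg (fun h3 => h2 (h1.1 h3)), if_neg h2]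
    push_cast
    ring

theorem cycles_span_b1 (M : SimpleGraph W) {u v : W} (p : M.Walk u v) (w : W) :
    b1 M (vec p) w = (if u = w then 1 else 0) + (if v = w then 1 else 0) := by
  induction p with
  | @nil a =>
    have : vec (SimpleGraph.Walk.nil : M.Walk a a) = 0 := by
      funext e
      simp [vec]
    rw [this, map_zero, Pi.zero_apply]
    exact (CharTwo.add_self_eq_zero _).symm
  | @cons a b c h p ih =>
    rw [cycles_span_cons, map_add, Pi.add_apply, ih, cycles_span_dart]
    have : ((if b = w then 1 else 0) + (if b = w then 1 else 0) : ZMod 2) = 0 :=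
      CharTwo.add_self_eq_zero _
    show ((if a = w then 1 else 0) + (if b = w then 1 else 0) : ZMod 2) +
      ((if b = w then 1 else 0) + (if c = w then 1 else 0)) = _
    linear_combination this

/-- the graph of the support of a chain -/
def cycles_span_K (M : SimpleGraph W) (x : M.edgeSet → ZMod 2) : SimpleGraph W where
  Adj a b := ∃ h : M.Adj a b, x ⟨s(a, b), h⟩ ≠ 0
  symm := ⟨by
    rintro a b ⟨h, hx⟩
    refine ⟨h.symm, ?_⟩
    have : (⟨s(b, a), h.symm⟩ : M.edgeSet) = ⟨s(a, b), h⟩ := Subtype.ext Sym2.eq_swap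
    rw [this]
    exact hx⟩
  loopless := ⟨fun a h => h.1.ne rfl⟩

theorem cycles_span_exists (M : SimpleGraph W) (x : M.edgeSet → ZMod 2) (hx : b1 M x = 0)
    (hx0 : x ≠ 0) : ¬ (cycles_span_K M x).IsAcyclic := by
  intro hac
  obtain ⟨e, he⟩ := Function.ne_iff.1 hx0
  obtain ⟨e, heM⟩ := e
  induction e using Sym2.ind with
  | _ a b =>
  have hab : M.Adj a b := heM
  have hK : (cycles_span_K M x).Adj a b := ⟨hab, he⟩
  have hbr := (SimpleGraph.isAcyclic_iff_forall_adj_isBridge.1 hac) hK
  rw [SimpleGraph.isBridge_iff] at hbr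
  have hnr := hbr
  set K' := (cycles_span_K M x).deleteEdges {s(a, b)} with hK'
  have hnr' : ¬ K'.Reachable a b := by
    simpa [hK'] using hbr
  -- sum over the side of a
  have hsum : ∑ d : M.Dart with K'.Reachable a d.fst, x (ed d) = 0 := by
    have h1 : ∑ d : M.Dart with K'.Reachable a d.fst, x (ed d) =
        ∑ w : W with K'.Reachable a w, b1 M x w := by
      have h2 : ∀ w, b1 M x w = ∑ d : M.Dart with d.fst = w, x (ed d) := fun w => rfl
      simp only [h2]
      rw [Finset.sum_filter, Finset.sum_filter]
      simp only [Finset.sum_filter]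
      have h3 : ∀ w, (if K'.Reachable a w then ∑ d : M.Dart, (if d.fst = w then x (ed d) else 0)
          else 0) = ∑ d : M.Dart, (if d.fst = w then (if K'.Reachable a w then x (ed d) else 0)
          else 0) := by
        intro w
        by_cases hw : K'.Reachable a w <;> simp [hw]
      rw [Finset.sum_congr rfl (fun w _ => h3 w), Finset.sum_comm]
      refine Finset.sum_congr rfl fun d _ => ?_
      rw [Finset.sum_ite_eq]
      simp
    rw [h1, hx]
    simp
  have hsplit := Finset.sum_filter_add_sum_filter_not
    (Finset.univ.filter (fun d : M.Dart => K'.Reachable a d.fst))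
    (fun d : M.Dart => K'.Reachable a d.snd) (fun d => x (ed d))
  rw [hsum] at hsplit
  have hin : ∑ d ∈ (Finset.univ.filter (fun d : M.Dart => K'.Reachable a d.fst)).filter
      (fun d : M.Dart => K'.Reachable a d.snd), x (ed d) = 0 := by
    refine Finset.sum_involution (fun d _ => d.symm) ?_ ?_ ?_ ?_
    · intro d _
      have : ed d.symm = ed d := Subtype.ext (SimpleGraph.Dart.edge_symm d)
      rw [this]
      exact CharTwo.add_self_eq_zero _
    · intro d _ _
      exact SimpleGraph.Dart.symm_ne d
    · intro d hd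
      simp only [Finset.mem_filter, Finset.mem_univ, true_and] at hd ⊢
      exact ⟨hd.2, hd.1⟩
    · intro d _
      exact SimpleGraph.Dart.symm_symm d
  rw [hin, zero_add] at hsplit
  have hra : K'.Reachable a a := SimpleGraph.Reachable.refl a
  have hout : ∑ d ∈ (Finset.univ.filter (fun d : M.Dart => K'.Reachable a d.fst)).filter
      (fun d : M.Dart => ¬ K'.Reachable a d.snd), x (ed d) = x (ed ⟨(a, b), hab⟩) := by
    refine Finset.sum_eq_single_of_mem _ ?_ ?_
    · simp only [Finset.mem_filter, Finset.mem_univ, true_and]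
      exact ⟨hra, hnr'⟩
    · intro d hd hne
      simp only [Finset.mem_filter, Finset.mem_univ, true_and] at hd
      by_contra hxd
      have hKd : (cycles_span_K M x).Adj d.fst d.snd := ⟨d.adj, hxd⟩
      by_cases hde : s(d.fst, d.snd) = s(a, b)
      · rw [Sym2.eq_iff] at hde
        rcases hde with ⟨h1, h2⟩ | ⟨h1, h2⟩
        · exact hne (SimpleGraph.Dart.ext _ _ (Prod.ext h1 h2))
        · rw [h1] at hd
          exact hnr' hd.1
      · have hK'd : K'.Adj d.fst d.snd := by
          rw [hK', SimpleGraph.deleteEdges_adj]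
          exact ⟨hKd, by simpa using hde⟩
        exact hd.2 (hd.1.trans hK'd.reachable)
  rw [hout] at hsplit
  exact he hsplit

theorem cycles_span (M : SimpleGraph W) (Q : Set (Sym2 W))
    (B : Submodule (ZMod 2) (M.edgeSet → ZMod 2))
    (h : ∀ (v : W) (c : M.Walk v v), c.IsCycle → (∀ e ∈ c.edges, e ∈ Q) → vec c ∈ B)
    (x : M.edgeSet → ZMod 2) (hx : b1 M x = 0) (hQ : ∀ e : M.edgeSet, e.1 ∉ Q → x e = 0) :
    x ∈ B := by
  induction hn : (Finset.univ.filter (fun e : Sym2 W => ∃ h : e ∈ M.edgeSet, x ⟨e, h⟩ ≠ 0)).card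
    using Nat.strong_induction_on generalizing x with
  | _ n ih =>
  by_cases hx0 : x = 0
  · rw [hx0]
    exact B.zero_mem
  have hnac := cycles_span_exists M x hx hx0
  unfold SimpleGraph.IsAcyclic at hnac
  push Not at hnac
  obtain ⟨v, c, hc⟩ := hnac
  have hle : cycles_span_K M x ≤ M := fun a b hab => hab.1
  have hc' : (c.mapLe hle).IsCycle := hc.mapLe hle
  have hedges : (c.mapLe hle).edges = c.edges := SimpleGraph.Walk.edges_mapLe_eq_edges hle c
  have hsupp : ∀ e ∈ (c.mapLe hle).edges, ∃ h : e ∈ M.edgeSet, x ⟨e, h⟩ ≠ 0 := by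
    intro e he
    rw [hedges] at he
    have := c.edges_subset_edgeSet he
    induction e using Sym2.ind with
    | _ a b =>
    obtain ⟨h1, h2⟩ : (cycles_span_K M x).Adj a b := this
    exact ⟨h1, h2⟩
  have hcB : vec (c.mapLe hle) ∈ B := by
    refine h v _ hc' fun e he => ?_
    by_contra heQ
    obtain ⟨h1, h2⟩ := hsupp e he
    exact h2 (hQ ⟨e, h1⟩ heQ)
  have hval : ∀ e : M.edgeSet, e.1 ∈ (c.mapLe hle).edges → vec (c.mapLe hle) e = 1 := by
    intro e he
    unfold vec
    rw [List.count_eq_one_of_mem hc'.edges_nodup he]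
    simp
  have hval0 : ∀ e : M.edgeSet, e.1 ∉ (c.mapLe hle).edges → vec (c.mapLe hle) e = 0 := by
    intro e he
    unfold vec
    rw [List.count_eq_zero_of_not_mem he]
    simp
  have hmod : ∀ y : ZMod 2, y ≠ 0 → y + 1 = 0 := by decide
  have key : x + vec (c.mapLe hle) ∈ B := by
    refine ih _ ?_ (x + vec (c.mapLe hle)) ?_ ?_ rfl
    · rw [← hn]
      refine Finset.card_lt_card ?_
      rw [Finset.ssubset_iff_of_subset]
      · -- an edge of c
        have hlen : (c.mapLe hle).edges ≠ [] := by
          intro h0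
          have h1 := SimpleGraph.Walk.length_edges (c.mapLe hle)
          rw [h0, List.length_nil] at h1
          have h2 := hc'.three_le_length
          omega
        obtain ⟨e, he⟩ := List.exists_mem_of_ne_nil _ hlen
        refine ⟨e, ?_, ?_⟩
        · rw [Finset.mem_filter]
          exact ⟨Finset.mem_univ _, hsupp e he⟩
        · rw [Finset.mem_filter]
          rintro ⟨-, h1, h2⟩
          apply h2
          rw [Pi.add_apply, hval ⟨e, h1⟩ he]
          obtain ⟨h3, h4⟩ := hsupp e he
          exact hmod _ h4
      · intro e he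
        rw [Finset.mem_filter] at he ⊢
        obtain ⟨-, h1, h2⟩ := he
        refine ⟨Finset.mem_univ _, h1, ?_⟩
        by_cases hec : e ∈ (c.mapLe hle).edges
        · obtain ⟨h3, h4⟩ := hsupp e hec
          exact h4
        · rw [Pi.add_apply, hval0 ⟨e, h1⟩ hec, add_zero] at h2
          exact h2
    · rw [map_add, hx, zero_add]
      funext w
      rw [cycles_span_b1]
      exact CharTwo.add_self_eq_zero _
    · intro e he
      have h1 := hQ e he
      have h2 : e.1 ∉ (c.mapLe hle).edges := by
        intro h3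
        obtain ⟨h4, h5⟩ := hsupp e.1 h3
        exact h5 h1
      rw [Pi.add_apply, h1, hval0 e h2, add_zero]
  have := B.sub_mem key hcB
  rwa [add_sub_cancel_right] at this

end aux

end Pool.Agent.H635EF
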