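import Pool.Agent.H635EF.Defs

set_option autoImplicit false

namespace Pool.Agent.H635EF

open Classical

theorem orbit_count_fiber {A : Type} [Fintype A] (π : Equiv.Perm A)
    (X : A → Prop)
    (h1 : ∀ a, π a ≠ a) (h2 : ∀ a, π (π a) ≠ a) (h3 : ∀ a, π (π (π a)) ≠ a)
    (hX : ∀ a, π (π (π (π a))) = a → X a ∨ X (π a) ∨ X (π (π a)) ∨ X (π (π (π a))))
    (c : Quotient (Equiv.Perm.SameCycle.setoid π)) :
    4 ≤ (Finset.univ.filter (fun a : A => (Quotient.mk (Equiv.Perm.SameCycle.setoid π) a) = c)).card ∧
    5 ≤ (Finset.univ.filter (fun a : A => (Quotient.mk (Equiv.Perm.SameCycle.setoid π) a) = c)).card +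
      (Finset.univ.filter (fun a : {a // X a} =>
        (Quotient.mk (Equiv.Perm.SameCycle.setoid π) a.1) = c)).card := by
  obtain ⟨a, rfl⟩ := Quotient.exists_rep c
  have hinj := π.injective
  have same : ∀ b, π.SameCycle a b → π.SameCycle a (π b) := fun b hb => by
    rwa [Equiv.Perm.sameCycle_apply_right]
  have q1 : ∀ b, π.SameCycle a b → Quotient.mk (Equiv.Perm.SameCycle.setoid π) b
      = Quotient.mk (Equiv.Perm.SameCycle.setoid π) a := by
    intro b hb
    apply Quotient.sound
    exact hb.symm
  have s0 : π.SameCycle a a := Equiv.Perm.SameCycle.refl _ _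
  have s1 := same _ s0
  have s2 := same _ s1
  have s3 := same _ s2
  have s4 := same _ s3
  have n01 : a ≠ π a := fun h => h1 a h.symm
  have n02 : a ≠ π (π a) := fun h => h2 a h.symm
  have n03 : a ≠ π (π (π a)) := fun h => h3 a h.symm
  have n12 : π a ≠ π (π a) := fun h => n01 (hinj h)
  have n13 : π a ≠ π (π (π a)) := fun h => n02 (hinj h)
  have n23 : π (π a) ≠ π (π (π a)) := fun h => n12 (hinj h)
  have n14 : π a ≠ π (π (π (π a))) := fun h => n03 (hinj h)
  have n24 : π (π a) ≠ π (π (π (π a))) := fun h => n13 (hinj h)
  have n34 : π (π (π a)) ≠ π (π (π (π a))) := fun h => n23 (hinj h)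
  have h4sub : ({a, π a, π (π a), π (π (π a))} : Finset A) ⊆
      Finset.univ.filter (fun b : A => (Quotient.mk (Equiv.Perm.SameCycle.setoid π) b) =
        Quotient.mk (Equiv.Perm.SameCycle.setoid π) a) := by
    intro b hb
    simp only [Finset.mem_insert, Finset.mem_singleton] at hb
    simp only [Finset.mem_filter, Finset.mem_univ, true_and]
    rcases hb with rfl | rfl | rfl | rfl
    · exact q1 _ s0
    · exact q1 _ s1
    · exact q1 _ s2
    · exact q1 _ s3
  have h4card : ({a, π a, π (π a), π (π (π a))} : Finset A).card = 4 := by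
    rw [Finset.card_insert_of_notMem, Finset.card_insert_of_notMem,
      Finset.card_insert_of_notMem, Finset.card_singleton]
    · simpa using n23
    · simp only [Finset.mem_insert, Finset.mem_singleton, not_or]
      exact ⟨n12, n13⟩
    · simp only [Finset.mem_insert, Finset.mem_singleton, not_or]
      exact ⟨n01, n02, n03⟩
  have hfour := Finset.card_le_card h4sub
  rw [h4card] at hfour
  refine ⟨hfour, ?_⟩
  by_cases h4 : π (π (π (π a))) = a
  · -- an element of X in the cycle
    have hx : ∃ b, X b ∧ π.SameCycle a b := by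
      rcases hX a h4 with h | h | h | h
      · exact ⟨_, h, s0⟩
      · exact ⟨_, h, s1⟩
      · exact ⟨_, h, s2⟩
      · exact ⟨_, h, s3⟩
    obtain ⟨b, hb, hsb⟩ := hx
    have hpos : 0 < (Finset.univ.filter (fun a' : {a // X a} =>
        (Quotient.mk (Equiv.Perm.SameCycle.setoid π) a'.1) =
          Quotient.mk (Equiv.Perm.SameCycle.setoid π) a)).card := by
      apply Finset.card_pos.mpr
      refine ⟨⟨b, hb⟩, ?_⟩
      simp only [Finset.mem_filter, Finset.mem_univ, true_and]
      exact q1 _ hsb
    omega
  · have n04 : a ≠ π (π (π (π a))) := fun h => h4 h.symm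
    have h5sub : ({a, π a, π (π a), π (π (π a)), π (π (π (π a)))} : Finset A) ⊆
        Finset.univ.filter (fun b : A => (Quotient.mk (Equiv.Perm.SameCycle.setoid π) b) =
          Quotient.mk (Equiv.Perm.SameCycle.setoid π) a) := by
      intro b hb
      simp only [Finset.mem_insert, Finset.mem_singleton] at hb
      simp only [Finset.mem_filter, Finset.mem_univ, true_and]
      rcases hb with rfl | rfl | rfl | rfl | rfl
      · exact q1 _ s0
      · exact q1 _ s1
      · exact q1 _ s2
      · exact q1 _ s3
      · exact q1 _ s4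
    have h5card : ({a, π a, π (π a), π (π (π a)), π (π (π (π a)))} : Finset A).card = 5 := by
      rw [Finset.card_insert_of_notMem, Finset.card_insert_of_notMem,
        Finset.card_insert_of_notMem, Finset.card_insert_of_notMem, Finset.card_singleton]
      · simpa using n34
      · simp only [Finset.mem_insert, Finset.mem_singleton, not_or]
        exact ⟨n23, n24⟩
      · simp only [Finset.mem_insert, Finset.mem_singleton, not_or]
        exact ⟨n12, n13, n14⟩
      · simp only [Finset.mem_insert, Finset.mem_singleton, not_or]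
        exact ⟨n01, n02, n03, n04⟩
    have hfive := Finset.card_le_card h5sub
    rw [h5card] at hfive
    omega

/-! TO PROVE.
PROOF IN WORDS. Let F be the number of cycles of π (fixed points included, but here there are none). Every cycle has at least 4
elements, namely a, π a, π^2 a, π^3 a. So 4 F ≤ |A|. A cycle with exactly 4 elements consists of these, so π^4 a = a (π^4 a is in
the cycle; it is not π a, π^2 a, π^3 a because by injectivity this would give π^3 a = a, π^2 a = a or π a = a), and it contains an
element of X. Cycles are disjoint, so the number of cycles with exactly 4 elements is at most |X|; the others have at least 5, so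
5 F - |X| ≤ |A|. -/

theorem orbit_count {A : Type} [Fintype A] (π : Equiv.Perm A) (X : A → Prop)
    (h1 : ∀ a, π a ≠ a) (h2 : ∀ a, π (π a) ≠ a) (h3 : ∀ a, π (π (π a)) ≠ a)
    (hX : ∀ a, π (π (π (π a))) = a → X a ∨ X (π a) ∨ X (π (π a)) ∨ X (π (π (π a)))) :
    4 * Nat.card (Quotient (Equiv.Perm.SameCycle.setoid π)) ≤ Fintype.card A ∧
      5 * Nat.card (Quotient (Equiv.Perm.SameCycle.setoid π)) ≤
        Fintype.card A + Fintype.card {a // X a} := by
  have hA : Fintype.card A = ∑ c : Quotient (Equiv.Perm.SameCycle.setoid π),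
      (Finset.univ.filter (fun a : A => (Quotient.mk (Equiv.Perm.SameCycle.setoid π) a) = c)).card := by
    rw [← Finset.card_univ]
    exact Finset.card_eq_sum_card_fiberwise (fun a _ => Finset.mem_univ _)
  have hXc : Fintype.card {a // X a} = ∑ c : Quotient (Equiv.Perm.SameCycle.setoid π),
      (Finset.univ.filter (fun a : {a // X a} =>
        (Quotient.mk (Equiv.Perm.SameCycle.setoid π) a.1) = c)).card := by
    rw [← Finset.card_univ]
    exact Finset.card_eq_sum_card_fiberwise (fun a _ => Finset.mem_univ _)
  have hN : Nat.card (Quotient (Equiv.Perm.SameCycle.setoid π)) =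
      ∑ _c : Quotient (Equiv.Perm.SameCycle.setoid π), 1 := by
    rw [Nat.card_eq_fintype_card, Finset.sum_const, Finset.card_univ, smul_eq_mul, mul_one]
  have key := orbit_count_fiber π X h1 h2 h3 hX
  constructor
  · rw [hN, hA, Finset.mul_sum]
    exact Finset.sum_le_sum (fun c _ => by simpa using (key c).1)
  · rw [hN, hA, hXc, Finset.mul_sum, ← Finset.sum_add_distrib]
    exact Finset.sum_le_sum (fun c _ => by simpa using (key c).2)

end Pool.Agent.H635EF
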