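import Pool.Agent.H635EF.Even
import Pool.Agent.H635EF.JobA
import Pool.Agent.H635EF.JobB
import Pool.Agent.H635EF.JobF

set_option autoImplicit false

namespace Pool.Agent.H635EF

open Classical

variable {W : Type} {M : SimpleGraph W} [Fintype W]

theorem no_spur (ρ : Rot M) (H : M.Subgraph) (a : M.Dart) (ha : H.Adj a.fst a.snd) (w : W)
    (hw : H.Adj a.snd w) (hne : w ≠ a.fst) : ρ.succ H a ≠ a.symm := by
  intro h
  obtain ⟨k, hk1, _, hk3⟩ := next_spec ρ H a.symm (symm_adj H a ha)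
  have h1 : (ρ.σ ^ (k + 1)) a.symm = a.symm := by
    rw [← hk1]
    exact h
  set e : M.Dart := SimpleGraph.Dart.mk (a.snd, w) hw.adj_sub with he
  obtain ⟨n, hn⟩ := (ρ.cyc a.symm e rfl).exists_nat_pow_eq
  have h2 : ∀ m : ℕ, (ρ.σ ^ ((k + 1) * m)) a.symm = a.symm := by
    intro m
    induction m with
    | zero => simp
    | succ m ih => rw [Nat.mul_succ, pow_add, Equiv.Perm.mul_apply, h1, ih]
  have h3 : (ρ.σ ^ (n % (k + 1))) a.symm = e := by
    have h4 : n = n % (k + 1) + (k + 1) * (n / (k + 1)) := (Nat.mod_add_div n (k + 1)).symm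
    rw [← hn]
    conv_rhs => rw [h4]
    rw [pow_add, Equiv.Perm.mul_apply, h2]
  have h5 : n % (k + 1) < k + 1 := Nat.mod_lt _ (by omega)
  rcases Nat.eq_zero_or_pos (n % (k + 1)) with h6 | h6
  · rw [h6, pow_zero, Equiv.Perm.one_apply] at h3
    apply hne
    have h7 := congrArg (fun d : M.Dart => d.snd) h3
    exact h7.symm
  · obtain ⟨j, hj⟩ : ∃ j, n % (k + 1) = j + 1 := ⟨n % (k + 1) - 1, by omega⟩
    apply hk3 j (by omega)
    rw [← hj, h3]
    exact hw

/-- degree in `S` -/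
noncomputable abbrev dS (G : M.Subgraph) (S : Finset W) (v : W) : ℕ :=
  (S.filter (G.spanningCoe.Adj v)).card

theorem ind_adj (G : M.Subgraph) (S : Finset W) (u v : W) :
    (G.induce (S : Set W)).Adj u v ↔ u ∈ S ∧ v ∈ S ∧ G.Adj u v := by
  simp [SimpleGraph.Subgraph.induce]

theorem fib_card (G : M.Subgraph) (S : Finset W) (v : W) (hv : v ∈ S) :
    (Finset.univ.filter fun a : DG (G.induce (S : Set W)) => a.1.fst = v).card = dS G S v := by
  apply Finset.card_bij (fun a _ => a.1.snd)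
  · intro a ha
    rw [Finset.mem_filter] at ha ⊢
    have h := (ind_adj G S a.1.fst a.1.snd).1 a.2
    refine ⟨h.2.1, ?_⟩
    rw [SimpleGraph.Subgraph.spanningCoe_adj, ← ha.2]
    exact h.2.2
  · intro a ha b hb h
    rw [Finset.mem_filter] at ha hb
    apply Subtype.ext
    apply SimpleGraph.Dart.ext
    exact Prod.ext (ha.2.trans hb.2.symm) h
  · intro w hw
    rw [Finset.mem_filter, SimpleGraph.Subgraph.spanningCoe_adj] at hw
    refine ⟨⟨SimpleGraph.Dart.mk (v, w) hw.2.adj_sub, (ind_adj G S v w).2 ⟨hv, hw.1, hw.2⟩⟩, ?_, rfl⟩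
    rw [Finset.mem_filter]
    exact ⟨Finset.mem_univ _, rfl⟩

theorem card_DG_sum (G : M.Subgraph) (S : Finset W) :
    Fintype.card (DG (G.induce (S : Set W))) = ∑ v ∈ S, dS G S v := by
  rw [← Finset.card_univ, Finset.card_eq_sum_card_fiberwise
    (f := fun a : DG (G.induce (S : Set W)) => a.1.fst) (t := S)
    (fun a _ => Finset.mem_coe.2 ((ind_adj G S a.1.fst a.1.snd).1 a.2).1)]
  exact Finset.sum_congr rfl (fun v hv => fib_card G S v hv)

theorem card_X_sum (G : M.Subgraph) (S : Finset W) :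
    Fintype.card {a : DG (G.induce (S : Set W)) // 5 ≤ dS G S a.1.fst} =
      ∑ v ∈ S, if 5 ≤ dS G S v then dS G S v else 0 := by
  rw [Fintype.card_subtype, Finset.card_eq_sum_card_fiberwise
    (f := fun a : DG (G.induce (S : Set W)) => a.1.fst) (t := S)
    (fun a _ => Finset.mem_coe.2 ((ind_adj G S a.1.fst a.1.snd).1 a.2).1)]
  apply Finset.sum_congr rfl
  intro v hv
  rw [Finset.filter_filter]
  split_ifs with h
  · rw [← fib_card G S v hv]
    congr 1
    ext a
    rw [Finset.mem_filter, Finset.mem_filter]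
    constructor
    · rintro ⟨h1, _, h3⟩
      exact ⟨h1, h3⟩
    · rintro ⟨h1, h3⟩
      refine ⟨h1, ?_, h3⟩
      rw [h3]
      exact h
  · rw [Finset.card_eq_zero, Finset.filter_eq_empty_iff]
    rintro a _ ⟨h1, h3⟩
    rw [h3] at h1
    exact h h1

theorem exists_crit {C : Type} (Γ : SimpleGraph W) (L : W → Finset C) (S : Finset W)
    (hS : ¬ ColOn Γ L S) : ∃ T ⊆ S, ¬ ColOn Γ L T ∧ ∀ U, U ⊂ T → ColOn Γ L U := by
  induction S using Finset.strongInduction with
  | H S ih =>
    by_cases h : ∀ U, U ⊂ S → ColOn Γ L U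
    · exact ⟨S, Finset.Subset.refl _, hS, h⟩
    · push Not at h
      obtain ⟨U, hU, hU2⟩ := h
      obtain ⟨T, hT1, hT2, hT3⟩ := ih U hU hU2
      exact ⟨T, hT1.trans hU.1, hT2, hT3⟩

theorem no_crit (ρ : Rot M) (g : ℕ) (hg : CellularGenus ρ g) (G : M.Subgraph)
    (hG : EvenFaced ρ G)
    (hN : ∀ (v : W) (c : M.Walk v v), c.IsCycle → (∀ e ∈ c.edges, e ∈ G.edgeSet) →
      ¬ Contractible ρ c → 42 * g + 4 ≤ c.length)
    {C : Type} [Nonempty C] (L : W → Finset C) (S : Finset W)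
    (hL : ∀ v ∈ S, 4 ≤ (L v).card) (hS : ¬ ColOn G.spanningCoe L S)
    (hmin : ∀ T, T ⊂ S → ColOn G.spanningCoe L T) : False := by
  -- no triangles
  have hshort : ∀ (v : W) (c : M.Walk v v), c.IsCycle → (∀ e ∈ c.edges, e ∈ G.edgeSet) →
      c.length < 42 * g + 4 → vec c ∈ LinearMap.range (betaM ρ) := by
    intro v c hc hcG hlen
    apply contr_vec
    by_contra hcon
    have := hN v c hc hcG hcon
    omega
  have htri : ∀ u v w : W, G.Adj u v → G.Adj v w → G.Adj w u → False := by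
    intro u v w huv hvw hwu
    have m1 : M.Adj u v := huv.adj_sub
    have m2 : M.Adj v w := hvw.adj_sub
    have m3 : M.Adj w u := hwu.adj_sub
    set c : M.Walk u u := SimpleGraph.Walk.cons m1 (SimpleGraph.Walk.cons m2
      (SimpleGraph.Walk.cons m3 SimpleGraph.Walk.nil)) with hc
    have hlen : c.length = 3 := rfl
    have hcyc : c.IsCycle := by
      rw [hc, SimpleGraph.Walk.cons_isCycle_iff]
      constructor
      · rw [SimpleGraph.Walk.isPath_def]
        simp [m2.ne, m3.ne, m1.ne.symm]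
      · simp [m1.ne, m2.ne, m3.ne.symm, m1.ne.symm]
    have hedges : ∀ e ∈ c.edges, e ∈ G.edgeSet := by
      intro e he
      rw [hc] at he
      simp only [SimpleGraph.Walk.edges_cons, SimpleGraph.Walk.edges_nil, List.mem_cons,
        List.not_mem_nil, or_false] at he
      rcases he with rfl | rfl | rfl
      · exact SimpleGraph.Subgraph.mem_edgeSet.2 huv
      · exact SimpleGraph.Subgraph.mem_edgeSet.2 hvw
      · exact SimpleGraph.Subgraph.mem_edgeSet.2 hwu
    have h1 := even_len ρ G hG c hedges (hshort u c hcyc hedges (by omega))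
    rw [hlen] at h1
    exact absurd h1 (by decide)
  set H : M.Subgraph := G.induce (S : Set W) with hH
  have hdeg : ∀ v ∈ S, 4 ≤ dS G S v := fun v hv =>
    crit_deg G.spanningCoe L S hL hS hmin v hv
  have hSne : S.Nonempty := by
    rw [Finset.nonempty_iff_ne_empty]
    rintro rfl
    apply hS
    obtain ⟨c0⟩ := (inferInstance : Nonempty C)
    exact ⟨fun _ => c0, fun v hv => absurd hv (Finset.notMem_empty v),
      fun v hv => absurd hv (Finset.notMem_empty v)⟩
  -- a neighbour different from a given vertex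
  have hother : ∀ v ∈ S, ∀ u : W, ∃ w, H.Adj v w ∧ w ≠ u := by
    intro v hv u
    have h1 := hdeg v hv
    have h2 : 0 < ((S.filter (G.spanningCoe.Adj v)).erase u).card := by
      have := Finset.pred_card_le_card_erase (s := S.filter (G.spanningCoe.Adj v)) (a := u)
      have h3 : 4 ≤ (S.filter (G.spanningCoe.Adj v)).card := h1
      omega
    obtain ⟨w, hw⟩ := Finset.card_pos.1 h2
    rw [Finset.mem_erase, Finset.mem_filter, SimpleGraph.Subgraph.spanningCoe_adj] at hw
    exact ⟨w, (ind_adj G S v w).2 ⟨hv, hw.2.1, hw.2.2⟩, hw.1⟩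
  have hne : Nonempty (DG H) := by
    obtain ⟨v, hv⟩ := hSne
    obtain ⟨w, hw, _⟩ := hother v hv v
    exact ⟨⟨SimpleGraph.Dart.mk (v, w) hw.adj_sub, hw⟩⟩
  have hHS : ∀ u v : W, H.Adj u v → u ∈ S := fun u v h => ((ind_adj G S u v).1 h).1
  have hHS' : ∀ u v : W, H.Adj u v → v ∈ S := fun u v h => ((ind_adj G S u v).1 h).2.1
  have hHG : ∀ u v : W, H.Adj u v → G.Adj u v := fun u v h => ((ind_adj G S u v).1 h).2.2
  -- facts on the face permutation
  have hfst : ∀ a : DG H, (Phi ρ H a).1.fst = a.1.snd := fun a => succ_fst ρ H a.1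
  have hsnd : ∀ a : DG H, (Phi ρ H a).1.snd ≠ a.1.fst := by
    intro a h
    obtain ⟨w, hw, hwne⟩ := hother a.1.snd (hHS' _ _ a.2) a.1.fst
    apply no_spur ρ H a.1 a.2 w hw hwne
    apply SimpleGraph.Dart.ext
    exact Prod.ext (hfst a) h
  have o1 : ∀ a : DG H, Phi ρ H a ≠ a := by
    intro a h
    have h1 := hfst a
    rw [h] at h1
    exact a.2.ne h1
  have o2 : ∀ a : DG H, Phi ρ H (Phi ρ H a) ≠ a := by
    intro a h
    have h1 := hfst (Phi ρ H a)
    rw [h] at h1
    exact hsnd a h1.symm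
  have o3 : ∀ a : DG H, Phi ρ H (Phi ρ H (Phi ρ H a)) ≠ a := by
    intro a h
    have h1 := hfst (Phi ρ H (Phi ρ H a))
    rw [h] at h1
    have h2 := hfst (Phi ρ H a)
    have h3 := hfst a
    have e1 := hHG _ _ a.2
    have e2 := hHG _ _ (Phi ρ H a).2
    have e3 := hHG _ _ (Phi ρ H (Phi ρ H a)).2
    rw [h3] at e2
    rw [h2, ← h1] at e3
    exact htri _ _ _ e1 e2 e3
  have o4 : ∀ a : DG H, Phi ρ H (Phi ρ H (Phi ρ H (Phi ρ H a))) = a →
      5 ≤ dS G S a.1.fst ∨ 5 ≤ dS G S (Phi ρ H a).1.fst ∨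
      5 ≤ dS G S (Phi ρ H (Phi ρ H a)).1.fst ∨
      5 ≤ dS G S (Phi ρ H (Phi ρ H (Phi ρ H a))).1.fst := by
    intro a h
    have f1 := hfst a
    have f2 := hfst (Phi ρ H a)
    have f3 := hfst (Phi ρ H (Phi ρ H a))
    have f4 := hfst (Phi ρ H (Phi ρ H (Phi ρ H a)))
    rw [h] at f4
    have e1 := hHG _ _ a.2
    have e2 := hHG _ _ (Phi ρ H a).2
    have e3 := hHG _ _ (Phi ρ H (Phi ρ H a)).2
    have e4 := hHG _ _ (Phi ρ H (Phi ρ H (Phi ρ H a))).2
    have s1 := hHS _ _ a.2
    have s2 := hHS _ _ (Phi ρ H a).2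
    have s3 := hHS _ _ (Phi ρ H (Phi ρ H a)).2
    have s4 := hHS _ _ (Phi ρ H (Phi ρ H (Phi ρ H a))).2
    have g1 := hsnd a
    have g2 := hsnd (Phi ρ H a)
    rw [← f1] at e1
    rw [← f2] at e2 g1
    rw [← f3] at e3 g2
    rw [← f4] at e4
    refine crit_four G.spanningCoe L S hL hS hmin _ _ _ _ s1 s2 s3 s4 ?_ ?_ ?_ ?_ ?_ ?_ ?_ ?_
    · exact e1
    · exact e2
    · exact e3
    · exact e4
    · exact fun h => g1 h.symm
    · exact fun h => g2 h.symm
    · intro h13
      exact htri _ _ _ e1 e2 h13.symm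
    · intro h24
      exact htri _ _ _ e2 e3 h24.symm
  obtain ⟨c1, c2⟩ := orbit_count (Phi ρ H) (fun a => 5 ≤ dS G S a.1.fst) o1 o2 o3 o4
  have c3 := card_DG H
  have c4 : Fintype.card (DG H) = ∑ v ∈ S, dS G S v := by
    convert card_DG_sum G S
  have c5 : Fintype.card {a : DG H // 5 ≤ dS G S a.1.fst} =
      ∑ v ∈ S, if 5 ≤ dS G S v then dS G S v else 0 := by
    convert card_X_sum G S
  have c6 := k6 ρ g hg H S hSne hHS hne
  have c7 : 4 * S.card ≤ Fintype.card (DG H) := by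
    rw [c4, mul_comm, ← smul_eq_mul, ← Finset.sum_const]
    exact Finset.sum_le_sum hdeg
  have c8 : Fintype.card {a : DG H // 5 ≤ dS G S a.1.fst} + 20 * S.card ≤
      5 * Fintype.card (DG H) := by
    rw [c4, c5, mul_comm 20, ← smul_eq_mul (a := S.card), ← Finset.sum_const, Finset.mul_sum,
      ← Finset.sum_add_distrib]
    apply Finset.sum_le_sum
    intro v hv
    have := hdeg v hv
    split_ifs
    · omega
    · omega
  have c1' : 4 * Nat.card (Orb (Phi ρ H)) ≤ Fintype.card (DG H) := by convert c1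
  have c2' : 5 * Nat.card (Orb (Phi ρ H)) ≤ Fintype.card (DG H) +
      Fintype.card {a : DG H // 5 ≤ dS G S a.1.fst} := by convert c2
  have c3' : Fintype.card (DG H) = 2 * Fintype.card (EG H) := by convert c3
  have c9 : S.card < 42 * g + 4 := by
    clear c1 c2 c3 c4 c5
    omega
  have c10 := k7 ρ H S hSne hHS hne (by
    intro x hx hx2
    apply cycles_span M H.edgeSet (LinearMap.range (betaM ρ)) _ x hx hx2
    intro v c hc hcH
    have hd : ∀ d ∈ c.darts, H.Adj d.fst d.snd := by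
      intro d hd
      have : d.edge ∈ c.edges := List.mem_map_of_mem hd
      exact SimpleGraph.Subgraph.mem_edgeSet.1 (hcH _ this)
    have h1 := cycle_len S c hc (fun d hd' => hHS' _ _ (hd d hd'))
    apply hshort v c hc _ (by omega)
    intro e he
    have h2 := hcH e he
    induction e with
    | _ u v =>
    exact SimpleGraph.Subgraph.mem_edgeSet.2 (hHG u v (SimpleGraph.Subgraph.mem_edgeSet.1 h2)))
  clear c1 c2 c3 c4 c5
  omega

theorem main (g : ℕ) (ρ : Rot M) (hg : CellularGenus ρ g) (G : M.Subgraph)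
    (hG : EvenFaced ρ G)
    (hN : EdgeWidthAtLeast ρ G (42 * g + 4)) : ListColourable G 4 := by
  intro C L hL
  by_cases hv : Nonempty G.verts
  · obtain ⟨v0⟩ := hv
    have hC : Nonempty C := by
      have h1 := hL v0
      have h2 : 0 < (L v0).card := by omega
      obtain ⟨c, _⟩ := Finset.card_pos.1 h2
      exact ⟨c⟩
    set L' : W → Finset C := fun w => if h : w ∈ G.verts then L ⟨w, h⟩ else ∅ with hL'
    set S : Finset W := Finset.univ.filter (fun w => w ∈ G.verts) with hS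
    have hmem : ∀ w, w ∈ S ↔ w ∈ G.verts := by
      intro w
      rw [hS, Finset.mem_filter]
      simp
    have hcol : ColOn G.spanningCoe L' S := by
      by_contra hcon
      obtain ⟨T, hT1, hT2, hT3⟩ := exists_crit G.spanningCoe L' S hcon
      refine no_crit ρ g hg G hG hN L' T ?_ hT2 hT3
      intro v hv
      have h1 := (hmem v).1 (hT1 hv)
      have h2 : L' v = L ⟨v, h1⟩ := dif_pos h1
      rw [h2]
      exact hL _
    obtain ⟨c, hc1, hc2⟩ := hcol
    refine ⟨fun v => c v.1, ?_, ?_⟩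
    · intro v
      have h1 := hc1 v.1 ((hmem v.1).2 v.2)
      have h2 : L' v.1 = L v := dif_pos v.2
      rw [h2] at h1
      exact h1
    · intro u v huv
      exact hc2 u.1 ((hmem _).2 u.2) v.1 ((hmem _).2 v.2) huv
  · exact ⟨fun v => absurd ⟨v⟩ hv, fun v => absurd ⟨v⟩ hv, fun v => absurd ⟨v⟩ hv⟩

end Pool.Agent.H635EF
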