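import Pool.Agent.H635EF.Chains

set_option autoImplicit false

namespace Pool.Agent.H635EF

open Classical

variable {W : Type} {M : SimpleGraph W}

theorem pow_fst (ρ : Rot M) (n : ℕ) (d : M.Dart) : ((ρ.σ ^ n) d).fst = d.fst := by
  induction n with
  | zero => simp
  | succ n ih => rw [pow_succ', Equiv.Perm.mul_apply, ρ.fst_eq, ih]

theorem next_fst (ρ : Rot M) (G : M.Subgraph) (d : M.Dart) : (ρ.next G d).fst = d.fst := by
  unfold Rot.next
  split_ifs
  · exact pow_fst ρ _ d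
  · rfl

variable [Fintype W]

theorem next_spec (ρ : Rot M) (G : M.Subgraph) (d : M.Dart) (hd : G.Adj d.fst d.snd) :
    ∃ k : ℕ, ρ.next G d = (ρ.σ ^ (k + 1)) d ∧
      G.Adj ((ρ.σ ^ (k + 1)) d).fst ((ρ.σ ^ (k + 1)) d).snd ∧
      ∀ j < k, ¬ G.Adj ((ρ.σ ^ (j + 1)) d).fst ((ρ.σ ^ (j + 1)) d).snd := by
  have hex : ∃ k : ℕ, G.Adj ((ρ.σ ^ (k + 1)) d).fst ((ρ.σ ^ (k + 1)) d).snd := by
    have hpos : 0 < orderOf ρ.σ := orderOf_pos ρ.σ
    refine ⟨orderOf ρ.σ - 1, ?_⟩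
    have h1 : orderOf ρ.σ - 1 + 1 = orderOf ρ.σ := by omega
    rw [h1, pow_orderOf_eq_one]
    exact hd
  refine ⟨Nat.find hex, ?_, Nat.find_spec hex, fun j hj => Nat.find_min hex hj⟩
  unfold Rot.next
  rw [dif_pos hex]

theorem next_adj (ρ : Rot M) (G : M.Subgraph) (d : M.Dart) (hd : G.Adj d.fst d.snd) :
    G.Adj (ρ.next G d).fst (ρ.next G d).snd := by
  obtain ⟨k, h1, h2, _⟩ := next_spec ρ G d hd
  rw [h1]
  exact h2

theorem next_inj (ρ : Rot M) (G : M.Subgraph) (d e : M.Dart) (hd : G.Adj d.fst d.snd)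
    (he : G.Adj e.fst e.snd) (h : ρ.next G d = ρ.next G e) : d = e := by
  obtain ⟨k, h1, _, h3⟩ := next_spec ρ G d hd
  obtain ⟨l, h4, _, h6⟩ := next_spec ρ G e he
  rw [h1, h4] at h
  rcases lt_trichotomy k l with hkl | hkl | hkl
  · exfalso
    have h7 : (k + 1) + (l - k - 1 + 1) = l + 1 := by omega
    have h9 : (ρ.σ ^ (k + 1)) d = (ρ.σ ^ (k + 1)) ((ρ.σ ^ (l - k - 1 + 1)) e) := by
      rw [← Equiv.Perm.mul_apply, ← pow_add, h7, h]
    have h8 := (ρ.σ ^ (k + 1)).injective h9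
    apply h6 (l - k - 1) (by omega)
    rw [← h8]
    exact hd
  · subst hkl
    exact (ρ.σ ^ (k + 1)).injective h
  · exfalso
    have h7 : (l + 1) + (k - l - 1 + 1) = k + 1 := by omega
    have h9 : (ρ.σ ^ (l + 1)) e = (ρ.σ ^ (l + 1)) ((ρ.σ ^ (k - l - 1 + 1)) d) := by
      rw [← Equiv.Perm.mul_apply, ← pow_add, h7, h]
    have h8 := (ρ.σ ^ (l + 1)).injective h9
    apply h3 (k - l - 1) (by omega)
    rw [← h8]
    exact he

omit [Fintype W] in
theorem symm_adj (G : M.Subgraph) (d : M.Dart) (hd : G.Adj d.fst d.snd) :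
    G.Adj d.symm.fst d.symm.snd := hd.symm

omit [Fintype W] in
theorem succ_fst (ρ : Rot M) (G : M.Subgraph) (d : M.Dart) : (ρ.succ G d).fst = d.snd :=
  next_fst ρ G d.symm

theorem succ_adj (ρ : Rot M) (G : M.Subgraph) (d : M.Dart) (hd : G.Adj d.fst d.snd) :
    G.Adj (ρ.succ G d).fst (ρ.succ G d).snd :=
  next_adj ρ G d.symm (symm_adj G d hd)

theorem succ_inj (ρ : Rot M) (G : M.Subgraph) (d e : M.Dart) (hd : G.Adj d.fst d.snd)
    (he : G.Adj e.fst e.snd) (h : ρ.succ G d = ρ.succ G e) : d = e := by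
  have := next_inj ρ G d.symm e.symm (symm_adj G d hd) (symm_adj G e he) h
  rw [← SimpleGraph.Dart.symm_symm d, this, SimpleGraph.Dart.symm_symm]

/-- the darts of `G` -/
abbrev DG (G : M.Subgraph) : Type := {d : M.Dart // G.Adj d.fst d.snd}

/-- the face permutation of `G` -/
noncomputable def Phi (ρ : Rot M) (G : M.Subgraph) : Equiv.Perm (DG G) :=
  Equiv.ofBijective (fun d : DG G => (⟨ρ.succ G d.1, succ_adj ρ G d.1 d.2⟩ : DG G)) (by
    apply Function.Injective.bijective_of_finite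
    intro d e h
    apply Subtype.ext
    exact succ_inj ρ G d.1 e.1 d.2 e.2 (congrArg Subtype.val h))

theorem Phi_val (ρ : Rot M) (G : M.Subgraph) (d : DG G) : (Phi ρ G d).1 = ρ.succ G d.1 := rfl

theorem Phi_iter (ρ : Rot M) (G : M.Subgraph) (n : ℕ) (d : DG G) :
    ((Phi ρ G)^[n] d).1 = (ρ.succ G)^[n] d.1 := by
  induction n with
  | zero => rfl
  | succ n ih => rw [Function.iterate_succ_apply', Function.iterate_succ_apply', Phi_val, ih]

theorem Phi_period (ρ : Rot M) (G : M.Subgraph) (d : DG G) :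
    Function.minimalPeriod (Phi ρ G) d = Function.minimalPeriod (ρ.succ G) d.1 := by
  apply Function.minimalPeriod_eq_minimalPeriod_iff.2
  intro n
  unfold Function.IsPeriodicPt Function.IsFixedPt
  rw [← Phi_iter, Subtype.ext_iff]

/-- the first return lemma -/
theorem ret (ρ : Rot M) (G : M.Subgraph) (χ : M.Dart → ZMod 2) (h1 : ∀ d, χ (ρ.φ d) = χ d)
    (h2 : ∀ d : M.Dart, ¬ G.Adj d.fst d.snd → χ d.symm = χ d) (d : M.Dart)
    (hd : G.Adj d.fst d.snd) : χ (ρ.succ G d) = χ d := by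
  obtain ⟨k, hk1, _, hk3⟩ := next_spec ρ G d.symm (symm_adj G d hd)
  have h3 : ρ.succ G d = (ρ.σ ^ (k + 1)) d.symm := hk1
  rw [h3]
  have h4 : ∀ j ≤ k, χ ((ρ.σ ^ (j + 1)) d.symm) = χ d := by
    intro j
    induction j with
    | zero =>
      intro _
      rw [zero_add, pow_one]
      exact h1 d
    | succ j ih =>
      intro hj
      rw [← ih (by omega), pow_succ', Equiv.Perm.mul_apply]
      have h5 := hk3 j (by omega)
      have h6 := h1 ((ρ.σ ^ (j + 1)) d.symm).symm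
      have h7 : ρ.φ ((ρ.σ ^ (j + 1)) d.symm).symm = ρ.σ ((ρ.σ ^ (j + 1)) d.symm) := by
        show ρ.σ (((ρ.σ ^ (j + 1)) d.symm).symm.symm) = _
        rw [SimpleGraph.Dart.symm_symm]
      rw [h7] at h6
      rw [h6]
      exact h2 _ h5
  exact h4 k le_rfl

end Pool.Agent.H635EF
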